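import Pool.Agent.H643R3.Gauss2

/-!
# The maximal density is attained
-/

set_option autoImplicit false

open MeasureTheory ProbabilityTheory Filter Topology

namespace Pool.Agent.H643R3

lemma isHardCoreLaw_of_corr {k : ℕ} (μ : Measure (ℤ → Bool)) [IsProbabilityMeasure μ]
    (h1 : ∀ S, μ.real (cyl (S.map (addRightEmbedding 1))) = μ.real (cyl S))
    (h2 : ∀ i : ℤ, μ.real (cyl {i, i + 1}) = 0)
    (h3 : ∀ S T : Finset ℤ, (∀ s ∈ S, ∀ t ∈ T, (k : ℤ) < |s - t|) →
      μ.real (cyl (S ∪ T)) = μ.real (cyl S) * μ.real (cyl T)) : IsHardCoreLaw k μ := by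
  have hmeas : Measurable (fun (x : ℤ → Bool) (i : ℤ) => x (i + 1)) :=
    measurable_pi_lambda _ fun _ => measurable_pi_apply _
  refine ⟨inferInstance, ?_, ?_, ?_⟩
  · have : IsProbabilityMeasure (μ.map (fun (x : ℤ → Bool) (i : ℤ) => x (i + 1))) :=
      Measure.isProbabilityMeasure_map hmeas.aemeasurable
    apply ext_of_generate_finite (piA Set.univ) generateFrom_univ (isPiSystem_piA _)
    · rintro _ ⟨S, -, rfl⟩
      rw [Measure.map_apply hmeas (measurableSet_cyl S)]
      have e : (fun (x : ℤ → Bool) (i : ℤ) => x (i + 1)) ⁻¹' cyl S =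
          cyl (S.map (addRightEmbedding 1)) := by
        ext x
        simp [cyl]
      rw [e, ← ENNReal.toReal_eq_toReal_iff' (measure_ne_top _ _) (measure_ne_top _ _)]
      exact h1 S
    · simp
  · rw [ae_all_iff]
    intro i
    have h4 := h2 i
    rw [measureReal_eq_zero_iff] at h4
    rw [ae_iff]
    refine measure_mono_null ?_ h4
    intro x hx
    simpa [cyl] using hx
  · intro A B hAB
    rw [IndepFun_iff_Indep, comap_eq, comap_eq]
    apply IndepSets.indep' _ _ (isPiSystem_piA A) (isPiSystem_piA B)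
    · rw [IndepSets_iff]
      rintro _ _ ⟨S, hS, rfl⟩ ⟨T, hT, rfl⟩
      rw [cyl_inter, ← ENNReal.toReal_eq_toReal_iff' (measure_ne_top _ _)
        (ENNReal.mul_ne_top (measure_ne_top _ _) (measure_ne_top _ _)), ENNReal.toReal_mul]
      exact h3 S T fun s hs t ht => hAB s (hS hs) t (hT ht)
    · rintro _ ⟨S, hS, rfl⟩; exact measurableSet_cyl S
    · rintro _ ⟨S, hS, rfl⟩; exact measurableSet_cyl S

lemma zero_eq_cyl : {x : ℤ → Bool | x 0 = true} = cyl {0} := by ext x; simp [cyl]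

lemma density_set_bdd (k : ℕ) :
    BddAbove {t | ∃ μ : Measure (ℤ → Bool), IsHardCoreLaw k μ ∧ μ.real {x | x 0 = true} = t} := by
  refine ⟨1 / 2, ?_⟩
  rintro t ⟨μ, h, rfl⟩
  rw [zero_eq_cyl]
  exact density_le_half h

lemma density_set_nonempty (k : ℕ) :
    {t | ∃ μ : Measure (ℤ → Bool), IsHardCoreLaw k μ ∧ μ.real {x | x 0 = true} = t}.Nonempty :=
  ⟨_, _, gauss_law k, rfl⟩

/-- a critical process exists for every `k` -/
theorem attained (k : ℕ) : ∃ μ : Measure (ℤ → Bool), IsHardCoreLaw k μ ∧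
    μ.real {x | x 0 = true} = maxDensity k := by
  obtain ⟨u, -, hu, hmem⟩ := exists_seq_tendsto_sSup (density_set_nonempty k) (density_set_bdd k)
  choose M hM hMu using hmem
  set P : ℕ → ProbabilityMeasure (ℤ → Bool) := fun n => ⟨M n, (hM n).prob⟩ with hP
  obtain ⟨ν, hν⟩ : ∃ ν, Tendsto P (hyperfilter ℕ) (𝓝 ν) := by
    have h1 := (Ultrafilter.map P (hyperfilter ℕ)).le_nhds_lim
    exact ⟨_, h1⟩
  have hc : ∀ S, Tendsto (fun i => (M i).real (cyl S)) (hyperfilter ℕ)
      (𝓝 ((ν : Measure (ℤ → Bool)).real (cyl S))) := by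
    intro S
    have h2 := ProbabilityMeasure.tendsto_measure_of_null_frontier_of_tendsto' hν
      (E := cyl S) (by rw [(isClopen_cyl S).frontier_eq]; simp)
    exact (ENNReal.tendsto_toReal (measure_ne_top _ _)).comp h2
  refine ⟨ν, isHardCoreLaw_of_corr _ ?_ ?_ ?_, ?_⟩
  · intro S
    have h1 := hc (S.map (addRightEmbedding 1))
    simp only [fun i => cyl_shift (hM i) S] at h1
    exact tendsto_nhds_unique h1 (hc S)
  · intro i
    have h1 := hc {i, i + 1}
    simp only [fun n => cyl_adj (hM n) i] at h1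
    exact tendsto_nhds_unique h1 tendsto_const_nhds
  · intro S T hST
    have h1 := hc (S ∪ T)
    simp only [fun n => cyl_union (hM n) S T hST] at h1
    exact tendsto_nhds_unique h1 ((hc S).mul (hc T))
  · have h1 := hc {0}
    rw [zero_eq_cyl]
    have h2 : Tendsto (fun i => (M i).real (cyl {0})) (hyperfilter ℕ) (𝓝 (maxDensity k)) := by
      have h3 : (fun i => (M i).real (cyl {0})) = u := by
        funext i
        rw [← zero_eq_cyl, hMu]
      rw [h3]
      refine hu.mono_left ?_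
      rw [← Nat.cofinite_eq_atTop]
      exact hyperfilter_le_cofinite
    exact tendsto_nhds_unique h1 h2

lemma le_maxDensity {k : ℕ} {μ : Measure (ℤ → Bool)} (h : IsHardCoreLaw k μ) :
    μ.real {x | x 0 = true} ≤ maxDensity k :=
  le_csSup (density_set_bdd k) ⟨μ, h, rfl⟩

lemma maxDensity_le {k : ℕ} {c : ℝ}
    (h : ∀ μ : Measure (ℤ → Bool), IsHardCoreLaw k μ → μ.real {x | x 0 = true} ≤ c) :
    maxDensity k ≤ c := by
  obtain ⟨μ, h1, h2⟩ := attained k
  rw [← h2]
  exact h μ h1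

lemma IsHardCoreLaw.mono {k l : ℕ} (hkl : k ≤ l) {μ : Measure (ℤ → Bool)}
    (h : IsHardCoreLaw k μ) : IsHardCoreLaw l μ :=
  ⟨h.prob, h.stationary, h.hardcore, fun A B hAB => h.dep A B fun a ha b hb =>
    lt_of_le_of_lt (by exact_mod_cast hkl) (hAB a ha b hb)⟩

lemma maxDensity_mono {k l : ℕ} (hkl : k ≤ l) : maxDensity k ≤ maxDensity l :=
  maxDensity_le fun _ h => le_maxDensity (h.mono hkl)

end Pool.Agent.H643R3
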