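import Pool.Agent.H643R3.Upper

/-!
# A block factor of an i.i.d. symmetric sequence with density `k / (2 (k + 1))`
-/

set_option autoImplicit false

open MeasureTheory ProbabilityTheory Filter Topology

namespace Pool.Agent.H643R3

/-- i.i.d. standard Gaussian variables indexed by `ℤ` -/
noncomputable def gam : Measure (ℤ → ℝ) := Measure.infinitePi (fun _ => gaussianReal 0 1)

instance : IsProbabilityMeasure gam := by unfold gam; infer_instance

/-- alternating sine kernel -/
noncomputable def coef (n l : ℕ) : ℝ := (-1) ^ l * Real.sin (Real.pi * (l + 1) / (n + 1))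

/-- moving average -/
noncomputable def F (n : ℕ) (w : ℤ → ℝ) (i : ℤ) : ℝ :=
  ∑ l ∈ Finset.range n, coef n l * w (i + (l : ℤ))

open Classical in
/-- the hard-core configuration -/
noncomputable def PhiG (n : ℕ) (w : ℤ → ℝ) (i : ℤ) : Bool :=
  decide (0 < F n w i ∧ F n w (i + 1) < 0)

lemma PhiG_true (n : ℕ) (w : ℤ → ℝ) (i : ℤ) :
    PhiG n w i = true ↔ (0 < F n w i ∧ F n w (i + 1) < 0) := by
  simp [PhiG]

lemma PhiG_hardcore (n : ℕ) (w : ℤ → ℝ) (i : ℤ) :
    ¬ (PhiG n w i = true ∧ PhiG n w (i + 1) = true) := by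
  rw [PhiG_true, PhiG_true]
  rintro ⟨⟨-, h1⟩, ⟨h2, -⟩⟩
  exact lt_asymm h1 h2

/-- σ-algebra of the coordinate `i` -/
@[reducible] def sig (i : ℤ) : MeasurableSpace (ℤ → ℝ) :=
  MeasurableSpace.comap (fun w : ℤ → ℝ => w i) inferInstance

lemma sig_le (i : ℤ) : sig i ≤ MeasurableSpace.pi := by
  rw [sig, ← measurable_iff_comap_le]
  exact measurable_pi_apply i

/-- the window of the site `i` -/
def win (n : ℕ) (i : ℤ) : Set ℤ := {j | i ≤ j ∧ j ≤ i + n}

lemma meas_coord (V : Set ℤ) (i : ℤ) (hi : i ∈ V) :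
    Measurable[⨆ j ∈ V, sig j] (fun w : ℤ → ℝ => w i) := by
  have h1 : sig i ≤ ⨆ j ∈ V, sig j := le_iSup₂_of_le i hi le_rfl
  exact Measurable.mono (comap_measurable _) h1 le_rfl

lemma meas_F (n : ℕ) (V : Set ℤ) (i : ℤ) (hi : ∀ l < n, i + (l : ℤ) ∈ V) :
    Measurable[⨆ j ∈ V, sig j] (fun w => F n w i) := by
  unfold F
  refine @Finset.measurable_fun_sum _ _ _ _ _ _ (⨆ j ∈ V, sig j) _ _ fun l hl => ?_
  exact (meas_coord V _ (hi l (Finset.mem_range.1 hl))).const_mul _

lemma meas_PhiG (n : ℕ) (V : Set ℤ) (i : ℤ) (hi : win n i ⊆ V) :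
    Measurable[⨆ j ∈ V, sig j] (fun w => PhiG n w i) := by
  apply @measurable_to_bool _ (⨆ j ∈ V, sig j)
  have : (fun w => PhiG n w i) ⁻¹' {true} = (fun w => F n w i) ⁻¹' Set.Ioi 0 ∩
      (fun w => F n w (i + 1)) ⁻¹' Set.Iio 0 := by
    ext w
    simp only [Set.mem_preimage, Set.mem_singleton_iff, PhiG_true, Set.mem_inter_iff, Set.mem_Ioi,
      Set.mem_Iio]
  rw [this]
  refine MeasurableSet.inter (meas_F n V i (fun l hl => hi ⟨?_, ?_⟩) measurableSet_Ioi)
    (meas_F n V (i + 1) (fun l hl => hi ⟨?_, ?_⟩) measurableSet_Iio) <;> omega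

lemma measurable_F (n : ℕ) (i : ℤ) : Measurable (fun w => F n w i) :=
  (meas_F n Set.univ i (fun _ _ => trivial)).mono (iSup₂_le fun j _ => sig_le j) le_rfl

lemma measurable_PhiG (n : ℕ) : Measurable (PhiG n) := by
  refine measurable_pi_lambda _ fun i => ?_
  have h1 := meas_PhiG n Set.univ i (Set.subset_univ _)
  exact h1.mono (iSup₂_le fun j _ => sig_le j) le_rfl

lemma gam_shift : gam.map (fun (w : ℤ → ℝ) (i : ℤ) => w (i + 1)) = gam :=
  Measure.map_infinitePi_infinitePi_of_inj (P := fun _ : ℤ => gaussianReal 0 1)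
    (f := fun i : ℤ => i + 1) (add_left_injective 1)

theorem gauss_law (n : ℕ) : IsHardCoreLaw n (gam.map (PhiG n)) := by
  have hmeas := measurable_PhiG n
  have hshift : Measurable (fun (w : ℤ → ℝ) (i : ℤ) => w (i + 1)) :=
    measurable_pi_lambda _ fun _ => measurable_pi_apply _
  have hshift' : Measurable (fun (w : ℤ → Bool) (i : ℤ) => w (i + 1)) :=
    measurable_pi_lambda _ fun _ => measurable_pi_apply _
  refine ⟨Measure.isProbabilityMeasure_map hmeas.aemeasurable, ?_, ?_, ?_⟩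
  · rw [Measure.map_map hshift' hmeas]
    conv_rhs => rw [← gam_shift]
    rw [Measure.map_map hmeas hshift]
    congr 1
    funext w i
    simp only [Function.comp, PhiG, F]
    congr 1
    simp only [show ∀ j : ℤ, i + 1 + j = i + j + 1 from fun j => by ring,
      show ∀ j : ℤ, i + 1 + 1 + j = i + 1 + j + 1 from fun j => by ring]
  · rw [ae_map_iff hmeas.aemeasurable]
    · exact ae_of_all _ fun w i => PhiG_hardcore n w i
    · have : {y : ℤ → Bool | ∀ i, ¬ (y i = true ∧ y (i + 1) = true)} =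
          ⋂ i : ℤ, (cyl {i, i + 1})ᶜ := by
        ext y; simp [cyl]
      rw [this]
      exact MeasurableSet.iInter fun i => (measurableSet_cyl _).compl
  · intro A B hAB
    have hind : iIndep sig gam := by
      have := iIndepFun_infinitePi (P := fun _ : ℤ => gaussianReal 0 1) (X := fun _ b => b)
        (fun _ => measurable_id)
      rw [iIndepFun_iff_iIndep] at this
      exact this
    set VA : Set ℤ := ⋃ a ∈ A, win n a with hVA
    set VB : Set ℤ := ⋃ b ∈ B, win n b with hVB
    have hdisj : Disjoint VA VB := by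
      rw [Set.disjoint_left]
      intro j hja hjb
      simp only [hVA, hVB, Set.mem_iUnion, win, Set.mem_ofPred_eq] at hja hjb
      obtain ⟨a, ha, ha1, ha2⟩ := hja
      obtain ⟨b, hb, hb1, hb2⟩ := hjb
      have h3 := hAB a ha b hb
      rcases abs_cases (a - b) with h5 | h5 <;> omega
    have hI := indep_iSup_of_disjoint (fun i => sig_le i) hind hdisj
    have hA : ∀ a ∈ A, Measurable[⨆ j ∈ VA, sig j] (fun w => PhiG n w a) := fun a ha =>
      meas_PhiG n VA a (Set.subset_biUnion_of_mem (u := fun a => win n a) ha)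
    have hB : ∀ b ∈ B, Measurable[⨆ j ∈ VB, sig j] (fun w => PhiG n w b) := fun b hb =>
      meas_PhiG n VB b (Set.subset_biUnion_of_mem (u := fun b => win n b) hb)
    rw [IndepFun_iff_Indep, Indep_iff]
    rintro s t ⟨s', hs', rfl⟩ ⟨t', ht', rfl⟩
    have hrA : Measurable (fun (y : ℤ → Bool) (a : A) => y a) :=
      measurable_pi_lambda _ fun _ => measurable_pi_apply _
    have hrB : Measurable (fun (y : ℤ → Bool) (b : B) => y b) :=
      measurable_pi_lambda _ fun _ => measurable_pi_apply _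
    have hmA : Measurable[⨆ j ∈ VA, sig j] (fun (w : ℤ → ℝ) (a : A) => PhiG n w a) :=
      @measurable_pi_lambda _ _ _ (⨆ j ∈ VA, sig j) _ _ (fun a => hA a a.2)
    have hmB : Measurable[⨆ j ∈ VB, sig j] (fun (w : ℤ → ℝ) (b : B) => PhiG n w b) :=
      @measurable_pi_lambda _ _ _ (⨆ j ∈ VB, sig j) _ _ (fun b => hB b b.2)
    rw [Measure.map_apply hmeas ((hrA hs').inter (hrB ht')), Measure.map_apply hmeas (hrA hs'),
      Measure.map_apply hmeas (hrB ht'), Set.preimage_inter]
    exact (Indep_iff _ _ _).1 hI _ _ (hmA hs') (hmB ht')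

end Pool.Agent.H643R3
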