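import Pool.Agent.H643R3.Gauss

/-!
# The density of the Gaussian block factor
-/

set_option autoImplicit false

open MeasureTheory ProbabilityTheory Filter Topology

namespace Pool.Agent.H643R3

lemma null_of_indep {Ω : Type*} [MeasurableSpace Ω] {μ : Measure Ω} [IsProbabilityMeasure μ]
    {X Y : Ω → ℝ} (hX : Measurable X) (hY : Measurable Y) (h : IndepFun X Y μ)
    (hna : ∀ y, μ.map Y {y} = 0) : μ {ω | X ω + Y ω = 0} = 0 := by
  have h1 := h.map_prod_eq_prod_map_map hX.aemeasurable hY.aemeasurable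
  have hm : MeasurableSet {p : ℝ × ℝ | p.1 + p.2 = 0} :=
    measurableSet_eq_fun (by fun_prop) (by fun_prop)
  have h2 : μ {ω | X ω + Y ω = 0} = (μ.map (fun ω => (X ω, Y ω))) {p | p.1 + p.2 = 0} := by
    rw [Measure.map_apply (hX.prodMk hY) hm]; rfl
  have := Measure.isProbabilityMeasure_map (μ := μ) hY.aemeasurable
  have := Measure.isProbabilityMeasure_map (μ := μ) hX.aemeasurable
  rw [h2, h1, Measure.measure_prod_null hm]
  filter_upwards with x
  have : Prod.mk x ⁻¹' {p : ℝ × ℝ | p.1 + p.2 = 0} = {-x} := by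
    ext y
    simp only [Set.mem_preimage, Set.mem_ofPred_eq, Set.mem_singleton_iff]
    constructor <;> intro h <;> linarith
  rw [this]
  exact hna _

lemma gam_coord (i : ℤ) (c : ℝ) (hc : c ≠ 0) (y : ℝ) :
    gam.map (fun w : ℤ → ℝ => c * w i) {y} = 0 := by
  have hm : Measurable (fun w : ℤ → ℝ => c * w i) := measurable_const.mul (measurable_pi_apply i)
  rw [Measure.map_apply hm (measurableSet_singleton y)]
  have h1 : (fun w : ℤ → ℝ => c * w i) ⁻¹' {y} = (fun w : ℤ → ℝ => w i) ⁻¹' {y / c} := by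
    ext w
    simp only [Set.mem_preimage, Set.mem_singleton_iff]
    rw [eq_div_iff hc, mul_comm]
  rw [h1, ← Measure.map_apply (measurable_pi_apply i) (measurableSet_singleton _)]
  have h2 : gam.map (fun w : ℤ → ℝ => w i) = gaussianReal 0 1 :=
    Measure.infinitePi_map_eval (fun _ : ℤ => gaussianReal 0 1) i
  rw [h2]
  have := nullSingletonClass_gaussianReal (μ := 0) (v := 1) (by simp)
  exact measure_singleton _

lemma F_null (n : ℕ) : gam {w | F (n + 1) w 0 = 0} = 0 := by
  have hind : iIndepFun (fun (l : ℕ) (w : ℤ → ℝ) => coef (n + 1) l * w (0 + (l : ℤ))) gam := by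
    have h1 : iIndepFun (fun (i : ℤ) (w : ℤ → ℝ) => w i) gam :=
      iIndepFun_infinitePi (P := fun _ : ℤ => gaussianReal 0 1) (X := fun _ b => b)
        (fun _ => measurable_id)
    have h2 : iIndepFun (fun (l : ℕ) (w : ℤ → ℝ) => w (0 + (l : ℤ))) gam :=
      h1.precomp (g := fun l : ℕ => 0 + (l : ℤ)) (fun a b h => by simpa using h)
    exact h2.comp (fun l x => coef (n + 1) l * x) (fun l => measurable_const_mul _)
  have hm : ∀ l : ℕ, Measurable (fun (w : ℤ → ℝ) => coef (n + 1) l * w (0 + (l : ℤ))) :=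
    fun l => (measurable_pi_apply _).const_mul _
  have h3 := hind.indepFun_sum_range_succ hm n
  have hc : coef (n + 1) n ≠ 0 := by
    unfold coef
    apply mul_ne_zero (by positivity)
    apply ne_of_gt
    apply Real.sin_pos_of_pos_of_lt_pi
    · positivity
    · rw [div_lt_iff₀ (by positivity)]
      apply mul_lt_mul_of_pos_left _ Real.pi_pos
      push_cast
      linarith
  have hX : Measurable (∑ j ∈ Finset.range n,
      (fun (w : ℤ → ℝ) => coef (n + 1) j * w (0 + (j : ℤ)))) := by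
    have e : (∑ j ∈ Finset.range n, (fun (w : ℤ → ℝ) => coef (n + 1) j * w (0 + (j : ℤ)))) =
        fun w => ∑ j ∈ Finset.range n, coef (n + 1) j * w (0 + (j : ℤ)) := by
      ext w; simp only [Finset.sum_apply]
    rw [e]
    exact Finset.measurable_fun_sum _ fun l _ => hm l
  have h4 := null_of_indep hX (hm n) h3 (fun y => gam_coord _ _ hc y)
  have h5 : {w | F (n + 1) w 0 = 0} = {w : ℤ → ℝ | (∑ j ∈ Finset.range n,
    (fun (w : ℤ → ℝ) => coef (n + 1) j * w (0 + (j : ℤ)))) w +
      coef (n + 1) n * w (0 + (n : ℤ)) = 0} := by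
    ext w
    simp only [F, Set.mem_ofPred_eq, Finset.sum_range_succ, Finset.sum_apply]
  rw [h5]
  exact h4

/-- sign flips preserve the law -/
lemma gam_sign (s : ℤ → ℝ) (hs : ∀ i, s i ^ 2 = 1) :
    gam.map (fun (w : ℤ → ℝ) (i : ℤ) => s i * w i) = gam := by
  unfold gam
  rw [Measure.infinitePi_map_pi (fun _ : ℤ => gaussianReal 0 1)
    (f := fun i x => s i * x) (fun i => measurable_const_mul _)]
  congr 1
  funext i
  rw [gaussianReal_map_const_mul]
  congr 1
  · simp
  · ext
    simp [hs]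

/-- injection of the index set -/
def rotIdx (n : ℕ) (j : ℤ) : ℤ := if 0 ≤ j ∧ j < n then j + 1 else if j = n then 0 else j

lemma rotIdx_inj (n : ℕ) : Function.Injective (rotIdx n) := by
  intro a b h
  unfold rotIdx at h
  split_ifs at h <;> omega

/-- signs -/
noncomputable def rotSign (n : ℕ) (j : ℤ) : ℝ := if j = n then (-1) ^ (n + 1) else -1

lemma rotSign_sq (n : ℕ) (j : ℤ) : rotSign n j ^ 2 = 1 := by
  unfold rotSign
  split_ifs
  · rw [← pow_mul, mul_comm, pow_mul]; norm_num
  · norm_num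

/-- the (twisted) negacyclic shift of the window `0, …, n` -/
noncomputable def rot (n : ℕ) (w : ℤ → ℝ) (j : ℤ) : ℝ := rotSign n j * w (rotIdx n j)

lemma measurable_rot (n : ℕ) : Measurable (rot n) :=
  measurable_pi_lambda _ fun _ => (measurable_pi_apply _).const_mul _

lemma gam_rot (n : ℕ) : gam.map (rot n) = gam := by
  have h1 : gam.map (fun (w : ℤ → ℝ) (i : ℤ) => w (rotIdx n i)) = gam :=
    Measure.map_infinitePi_infinitePi_of_inj (P := fun _ : ℤ => gaussianReal 0 1)
      (f := rotIdx n) (rotIdx_inj n)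
  have h2 := gam_sign (rotSign n) (rotSign_sq n)
  have h3 : rot n = (fun (w : ℤ → ℝ) (i : ℤ) => rotSign n i * w i) ∘
      (fun (w : ℤ → ℝ) (i : ℤ) => w (rotIdx n i)) := rfl
  rw [h3, ← Measure.map_map, h1, h2]
  · exact measurable_pi_lambda _ fun _ => (measurable_pi_apply _).const_mul _
  · exact measurable_pi_lambda _ fun _ => measurable_pi_apply _

/-- the sinusoid sampled at the multiples of `π / (n + 1)` -/
noncomputable def hh (n m : ℕ) (w : ℤ → ℝ) : ℝ :=
  ∑ j ∈ Finset.range (n + 1), Real.sin (Real.pi * (j + 1 - m) / (n + 1)) * ((-1) ^ j * w j)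

lemma F_zero (n : ℕ) (w : ℤ → ℝ) : F n w 0 = hh n 0 w := by
  unfold F hh
  rw [Finset.sum_range_succ]
  have h1 : Real.sin (Real.pi * ((n : ℝ) + 1 - (0 : ℕ)) / (n + 1)) = 0 := by
    rw [Nat.cast_zero, sub_zero, mul_div_assoc, div_self (by positivity), mul_one, Real.sin_pi]
  rw [h1, zero_mul, add_zero]
  apply Finset.sum_congr rfl
  intro l _
  rw [coef, Nat.cast_zero, sub_zero, zero_add]
  ring

lemma F_one (n : ℕ) (w : ℤ → ℝ) : F n w 1 = -hh n 1 w := by
  unfold F hh
  rw [Finset.sum_range_succ']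
  have h1 : Real.sin (Real.pi * (((0 : ℕ) : ℝ) + 1 - (1 : ℕ)) / (n + 1)) = 0 := by simp
  rw [h1, zero_mul, add_zero, ← Finset.sum_neg_distrib]
  apply Finset.sum_congr rfl
  intro l _
  rw [coef, Nat.cast_one, Nat.cast_add, Nat.cast_one, add_sub_cancel_right]
  push_cast
  rw [add_comm (1 : ℤ) (l : ℤ)]
  ring

lemma hh_rot (n m : ℕ) (w : ℤ → ℝ) : hh n m (rot n w) = hh n (m + 1) w := by
  unfold hh
  rw [Finset.sum_range_succ, Finset.sum_range_succ']
  congr 1
  · apply Finset.sum_congr rfl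
    intro j hj
    rw [Finset.mem_range] at hj
    have h1 : rot n w (j : ℤ) = - w ((j : ℤ) + 1) := by
      unfold rot rotSign rotIdx
      rw [if_neg (by omega), if_pos (by omega)]
      ring
    rw [h1]
    push_cast
    rw [show (j : ℝ) + 1 + 1 - (m + 1) = j + 1 - m by ring]
    ring
  · have h1 : rot n w (n : ℤ) = (-1) ^ (n + 1) * w 0 := by
      unfold rot rotSign rotIdx
      rw [if_pos rfl, if_neg (by omega), if_pos rfl]
    rw [h1]
    have h2 : Real.sin (Real.pi * ((n : ℝ) + 1 - m) / (n + 1)) =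
        - Real.sin (Real.pi * (((0 : ℕ) : ℝ) + 1 - ((m + 1 : ℕ) : ℝ)) / (n + 1)) := by
      rw [← Real.sin_neg, ← Real.sin_pi_sub]
      congr 1
      push_cast
      field_simp
      ring
    rw [h2]
    have h3 : (-1 : ℝ) ^ n * ((-1) ^ (n + 1) * w 0) = - w 0 := by
      rw [← mul_assoc, ← pow_add, show n + (n + 1) = 2 * n + 1 by ring, pow_succ, pow_mul]
      norm_num
    rw [h3]
    simp

lemma measurable_hh (n m : ℕ) : Measurable (hh n m) := by
  unfold hh
  exact Finset.measurable_fun_sum _ fun l _ => ((measurable_pi_apply _).const_mul _).const_mul _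

/-- sign change from plus to minus between `m` and `m + 1` -/
def CC (n m : ℕ) : Set (ℤ → ℝ) := {w | 0 < hh n m w ∧ hh n (m + 1) w < 0}

lemma measurableSet_CC (n m : ℕ) : MeasurableSet (CC n m) :=
  (measurableSet_lt measurable_const (measurable_hh n m)).inter
    (measurableSet_lt (measurable_hh n (m + 1)) measurable_const)

lemma CC_measure (n m : ℕ) : gam (CC n m) = gam (CC n 0) := by
  induction m with
  | zero => rfl
  | succ m ih =>
    rw [← ih]
    conv_rhs => rw [← gam_rot n]
    rw [Measure.map_apply (measurable_rot n) (measurableSet_CC n m)]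
    congr 1
    ext w
    simp only [CC, Set.mem_preimage, Set.mem_ofPred_eq, hh_rot]

/-- amplitude form -/
lemma hh_form (n : ℕ) (w : ℤ → ℝ) : ∃ A B : ℝ, ∀ m : ℕ,
    hh n m w = A * Real.cos (Real.pi * m / (n + 1)) - B * Real.sin (Real.pi * m / (n + 1)) := by
  refine ⟨∑ j ∈ Finset.range (n + 1), Real.sin (Real.pi * (j + 1) / (n + 1)) * ((-1) ^ j * w j),
    ∑ j ∈ Finset.range (n + 1), Real.cos (Real.pi * (j + 1) / (n + 1)) * ((-1) ^ j * w j),
    fun m => ?_⟩
  unfold hh
  rw [Finset.sum_mul, Finset.sum_mul, ← Finset.sum_sub_distrib]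
  apply Finset.sum_congr rfl
  intro j _
  rw [show Real.pi * ((j : ℝ) + 1 - m) / (n + 1) =
    Real.pi * (j + 1) / (n + 1) - Real.pi * m / (n + 1) by ring, Real.sin_sub]
  ring

lemma three_term (n : ℕ) (w : ℤ → ℝ) (a b c : ℕ) :
    hh n b w * Real.sin (Real.pi * ((c : ℝ) - a) / (n + 1)) =
      hh n a w * Real.sin (Real.pi * ((c : ℝ) - b) / (n + 1)) +
      hh n c w * Real.sin (Real.pi * ((b : ℝ) - a) / (n + 1)) := by
  obtain ⟨A, B, h⟩ := hh_form n w
  rw [h, h, h, show Real.pi * ((c : ℝ) - a) / (n + 1) =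
    Real.pi * c / (n + 1) - Real.pi * a / (n + 1) by ring,
    show Real.pi * ((c : ℝ) - b) / (n + 1) =
    Real.pi * c / (n + 1) - Real.pi * b / (n + 1) by ring,
    show Real.pi * ((b : ℝ) - a) / (n + 1) =
    Real.pi * b / (n + 1) - Real.pi * a / (n + 1) by ring, Real.sin_sub, Real.sin_sub,
    Real.sin_sub]
  ring

lemma hh_period (n m : ℕ) (w : ℤ → ℝ) : hh n (m + (n + 1)) w = - hh n m w := by
  obtain ⟨A, B, h⟩ := hh_form n w
  rw [h, h]
  have e : Real.pi * ((m + (n + 1) : ℕ) : ℝ) / (n + 1) = Real.pi * m / (n + 1) + Real.pi := by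
    push_cast
    field_simp
  rw [e, Real.cos_add_pi, Real.sin_add_pi]
  ring

/-- no second down-crossing less than half a period later -/
lemma no_cross (n a c : ℕ) (w : ℤ → ℝ) (h1 : a + 1 ≤ c) (h2 : c ≤ a + n) (ha : w ∈ CC n a)
    (hc : 0 < hh n c w) : False := by
  obtain ⟨ha1, ha2⟩ := ha
  have h3 := three_term n w a (a + 1) c
  have hn : (0 : ℝ) < n + 1 := by positivity
  have e1 : ((a + 1 : ℕ) : ℝ) ≤ (c : ℝ) := by exact_mod_cast h1
  have e2 : (c : ℝ) ≤ ((a + n : ℕ) : ℝ) := by exact_mod_cast h2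
  push_cast at e1 e2
  have s1 : 0 < Real.sin (Real.pi * ((c : ℝ) - a) / (n + 1)) := by
    apply Real.sin_pos_of_pos_of_lt_pi
    · apply div_pos (mul_pos Real.pi_pos (by linarith)) hn
    · rw [div_lt_iff₀ hn]
      apply mul_lt_mul_of_pos_left (by linarith) Real.pi_pos
  have s2 : 0 ≤ Real.sin (Real.pi * ((c : ℝ) - ((a + 1 : ℕ) : ℝ)) / (n + 1)) := by
    push_cast
    apply Real.sin_nonneg_of_nonneg_of_le_pi
    · apply div_nonneg (mul_nonneg Real.pi_pos.le (by linarith)) hn.le
    · rw [div_le_iff₀ hn]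
      apply mul_le_mul_of_nonneg_left (by linarith) Real.pi_pos.le
  have s3 : 0 < Real.sin (Real.pi * (((a + 1 : ℕ) : ℝ) - a) / (n + 1)) := by
    push_cast
    apply Real.sin_pos_of_pos_of_lt_pi
    · apply div_pos (mul_pos Real.pi_pos (by linarith)) hn
    · rw [div_lt_iff₀ hn]
      apply mul_lt_mul_of_pos_left (by linarith) Real.pi_pos
  have t1 : hh n (a + 1) w * Real.sin (Real.pi * ((c : ℝ) - a) / (n + 1)) < 0 :=
    mul_neg_of_neg_of_pos ha2 s1
  have t2 := mul_nonneg ha1.le s2
  have t3 := mul_pos hc s3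
  linarith

lemma CC_disjoint (n : ℕ) (a b : ℕ) (hab : a < b) (hb : b < 2 * (n + 1)) :
    Disjoint (CC n a) (CC n b) := by
  rw [Set.disjoint_left]
  intro w ha hb'
  rcases lt_trichotomy b (a + (n + 1)) with h | h | h
  · exact no_cross n a b w (by omega) (by omega) ha hb'.1
  · have h1 := hb'.1
    rw [h, hh_period] at h1
    have h2 := ha.1
    linarith
  · have h1 : hh n (a + 2 * (n + 1)) w = hh n a w := by
      rw [show a + 2 * (n + 1) = a + (n + 1) + (n + 1) by ring, hh_period, hh_period, neg_neg]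
    exact no_cross n b (a + 2 * (n + 1)) w (by omega) (by omega) hb' (by rw [h1]; exact ha.1)

lemma CC_bound (n : ℕ) : gam.real (CC n 0) ≤ 1 / (2 * (n + 1)) := by
  have h1 : gam.real (⋃ m ∈ Finset.range (2 * (n + 1)), CC n m) ≤ 1 := measureReal_le_one
  rw [measureReal_biUnion_finset] at h1
  · rw [Finset.sum_congr rfl (fun m _ => by rw [Measure.real, CC_measure n m]), Finset.sum_const,
      Finset.card_range, nsmul_eq_mul] at h1
    rw [le_div_iff₀ (by positivity)]
    push_cast at h1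
    rw [mul_comm]
    exact h1
  · intro a ha b hb hab
    simp only [Finset.coe_range, Set.mem_Iio] at ha hb
    rcases lt_or_gt_of_ne hab with h | h
    · exact CC_disjoint n a b h hb
    · exact (CC_disjoint n b a h ha).symm
  · intro m _
    exact measurableSet_CC n m

lemma gam_neg : gam.map (fun (w : ℤ → ℝ) (i : ℤ) => -w i) = gam := by
  have := gam_sign (fun _ => -1) (fun _ => by norm_num)
  simpa using this

lemma F_pos_half (n : ℕ) : gam.real {w | 0 < F (n + 1) w 0} = 1 / 2 := by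
  have hm := measurable_F (n + 1) 0
  have hneg : Measurable (fun (w : ℤ → ℝ) (i : ℤ) => -w i) :=
    measurable_pi_lambda _ fun _ => (measurable_pi_apply _).neg
  have h1 : gam {w | 0 < F (n + 1) w 0} = gam {w | F (n + 1) w 0 < 0} := by
    conv_lhs => rw [← gam_neg]
    rw [Measure.map_apply hneg (measurableSet_lt measurable_const hm)]
    congr 1
    ext w
    simp only [Set.mem_preimage, Set.mem_ofPred_eq, F, mul_neg, Finset.sum_neg_distrib]
    constructor <;> intro h <;> linarith
  have h2 : gam.real ({w | 0 < F (n + 1) w 0} ∪ {w | F (n + 1) w 0 < 0}) = 1 := by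
    have h3 : gam.real ({w | F (n + 1) w 0 = 0}ᶜ) = 1 := by
      rw [probReal_compl_eq_one_sub (measurableSet_eq_fun hm measurable_const), Measure.real,
        F_null]
      simp
    rw [← h3]
    congr 1
    ext w
    simp only [Set.mem_union, Set.mem_ofPred_eq, Set.mem_compl_iff]
    constructor
    · rintro (h | h)
      exacts [h.ne', h.ne]
    · intro h
      rcases lt_or_gt_of_ne h with h | h
      exacts [Or.inr h, Or.inl h]
  rw [measureReal_union _ (measurableSet_lt hm measurable_const)] at h2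
  · have h4 : gam.real {w | 0 < F (n + 1) w 0} = gam.real {w | F (n + 1) w 0 < 0} := by
      unfold Measure.real
      rw [h1]
    linarith
  · rw [Set.disjoint_left]
    intro w h5 h6
    exact lt_asymm (show 0 < F (n + 1) w 0 from h5) (show F (n + 1) w 0 < 0 from h6)

lemma F_one_null (n : ℕ) : gam {w | F (n + 1) w 1 = 0} = 0 := by
  have hshift : Measurable (fun (w : ℤ → ℝ) (i : ℤ) => w (i + 1)) :=
    measurable_pi_lambda _ fun _ => measurable_pi_apply _
  have h1 := F_null n
  rw [← gam_shift, Measure.map_apply hshift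
    (measurableSet_eq_fun (measurable_F (n + 1) 0) measurable_const)] at h1
  convert h1 using 2
  ext w
  simp only [Set.mem_preimage, Set.mem_ofPred_eq, F]
  simp only [show ∀ j : ℤ, 1 + j = 0 + j + 1 from fun j => by ring]

theorem gauss_density (n : ℕ) :
    ((n : ℝ) + 1) / (2 * (n + 2)) ≤ (gam.map (PhiG (n + 1))).real {x | x 0 = true} := by
  have hF := measurable_F (n + 1)
  have hmeas : MeasurableSet {x : ℤ → Bool | x 0 = true} := by
    have : {x : ℤ → Bool | x 0 = true} = cyl {0} := by ext x; simp [cyl]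
    rw [this]
    exact measurableSet_cyl _
  rw [Measure.real, Measure.map_apply (measurable_PhiG (n + 1)) hmeas, ← Measure.real]
  have e : PhiG (n + 1) ⁻¹' {x | x 0 = true} = {w | 0 < F (n + 1) w 0 ∧ F (n + 1) w 1 < 0} := by
    ext w
    simp only [Set.mem_preimage, Set.mem_ofPred_eq, PhiG_true, zero_add]
  rw [e]
  have hC : CC (n + 1) 0 = {w | 0 < F (n + 1) w 0 ∧ 0 < F (n + 1) w 1} := by
    ext w
    simp only [CC, Set.mem_ofPred_eq, F_zero, F_one, zero_add]
    constructor <;> rintro ⟨h1, h2⟩ <;> exact ⟨h1, by linarith⟩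
  have h1 := CC_bound (n + 1)
  rw [hC] at h1
  have h2 := F_pos_half n
  have h3 : gam.real {w | 0 < F (n + 1) w 0} ≤
      gam.real {w | 0 < F (n + 1) w 0 ∧ F (n + 1) w 1 < 0} +
      gam.real {w | 0 < F (n + 1) w 0 ∧ 0 < F (n + 1) w 1} := by
    refine le_trans ?_ (measureReal_union_le _ _)
    refine ENNReal.toReal_mono (measure_ne_top _ _) (measure_mono_ae ?_)
    have h4 : ∀ᵐ w ∂gam, ¬ F (n + 1) w 1 = 0 := by
      rw [ae_iff]; simpa using F_one_null n
    filter_upwards [h4] with w hw h5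
    rcases lt_or_gt_of_ne hw with h6 | h6
    · exact Or.inl ⟨h5, h6⟩
    · exact Or.inr ⟨h5, h6⟩
  have h5 : ((n : ℝ) + 1) / (2 * (n + 2)) = 1 / 2 - 1 / (2 * ((n + 1 : ℕ) + 1)) := by
    push_cast
    field_simp
    ring
  rw [h5]
  linarith

end Pool.Agent.H643R3
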