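import Pool.Agent.H643R3.Window

/-!
# Positivity of the gap law for explicit parameters
-/

set_option autoImplicit false

namespace Pool.Agent.H643R3

/-- the value of `r = P(X_0 = X_2 = 1) / P(X_0 = 1)` -/
noncomputable def r0 : ℝ := 227 / 500
/-- the density -/
noncomputable def p0 : ℝ := 693633 / 1953125

/-- gap law: `ff k = P(gap = k + 1)` -/
noncomputable def ff (k : ℕ) : ℝ := T r0 (p0 - r0) (k + 2) - T r0 (p0 - r0) (k + 3)

lemma ff_rec (k : ℕ) : ff (k + 3) = ff (k + 2) - r0 * ff (k + 1) - (p0 - r0) * ff k := by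
  have h1 : T r0 (p0 - r0) (k + 5) = T r0 (p0 - r0) (k + 4) - r0 * T r0 (p0 - r0) (k + 3)
    - (p0 - r0) * T r0 (p0 - r0) (k + 2) := T_rec r0 (p0 - r0) (k + 2)
  have h2 : T r0 (p0 - r0) (k + 6) = T r0 (p0 - r0) (k + 5) - r0 * T r0 (p0 - r0) (k + 4)
    - (p0 - r0) * T r0 (p0 - r0) (k + 3) := T_rec r0 (p0 - r0) (k + 3)
  have e0 : ff k = T r0 (p0 - r0) (k + 2) - T r0 (p0 - r0) (k + 3) := rfl
  have e1 : ff (k + 1) = T r0 (p0 - r0) (k + 3) - T r0 (p0 - r0) (k + 4) := rfl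
  have e2 : ff (k + 2) = T r0 (p0 - r0) (k + 4) - T r0 (p0 - r0) (k + 5) := rfl
  have e3 : ff (k + 3) = T r0 (p0 - r0) (k + 5) - T r0 (p0 - r0) (k + 6) := rfl
  rw [e0, e1, e2, e3]
  linear_combination h1 - h2

lemma ff_zero : ff 0 = 0 := by
  have h3 : T r0 (p0 - r0) 3 = 1 := by rw [T]; simp [T]
  have h2 : T r0 (p0 - r0) 2 = 1 := rfl
  show T r0 (p0 - r0) 2 - T r0 (p0 - r0) 3 = 0
  rw [h2, h3]; norm_num

lemma ff_one : ff 1 = 227 / 500 := by
  have h2 : T r0 (p0 - r0) 2 = 1 := rfl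
  have h3 : T r0 (p0 - r0) 3 = 1 := by rw [T]; simp [T]
  have h4 : T r0 (p0 - r0) 4 = 1 - r0 := by
    have := T_rec r0 (p0 - r0) 1
    rw [show 1 + 3 = 4 from rfl, show 1 + 2 = 3 from rfl, show 1 + 1 = 2 from rfl, h2, h3] at this
    rw [this, show T r0 (p0 - r0) 1 = 0 from rfl]; ring
  show T r0 (p0 - r0) 3 - T r0 (p0 - r0) 4 = 227 / 500
  rw [h3, h4, r0]; norm_num

lemma ff_two : ff 2 = 693633 / 1953125 := by
  have h2 : T r0 (p0 - r0) 2 = 1 := rfl
  have h3 : T r0 (p0 - r0) 3 = 1 := by rw [T]; simp [T]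
  have h5 : T r0 (p0 - r0) 5 = T r0 (p0 - r0) 4 - r0 - (p0 - r0) := by
    have := T_rec r0 (p0 - r0) 2
    rw [show 2 + 3 = 5 from rfl, show 2 + 2 = 4 from rfl, show 2 + 1 = 3 from rfl, h2, h3] at this
    rw [this]; ring
  show T r0 (p0 - r0) 4 - T r0 (p0 - r0) 5 = 693633 / 1953125
  rw [h5, p0]; ring

lemma ff_small : ∀ k < 8, 0 ≤ ff k := by
  have h3 : ff 3 = 4657003/31250000 := by
    rw [ff_rec, ff_two, ff_one, ff_zero]; unfold r0 p0; norm_num
  have h4 : ff 4 = 15953559/488281250 := by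
    rw [ff_rec, h3, ff_two, ff_one]; unfold r0 p0; norm_num
  have h5 : ff 5 = 30533458279/244140625000000 := by
    rw [ff_rec, h4, h3, ff_two]; unfold r0 p0; norm_num
  have h6 : ff 6 = 1469808327/61035156250000 := by
    rw [ff_rec, h5, h4, h3]; unfold r0 p0; norm_num
  have h7 : ff 7 = 390300349424251/122070312500000000 := by
    rw [ff_rec, h6, h5, h4]; unfold r0 p0; norm_num
  intro k hk
  interval_cases k
  · rw [ff_zero]
  · rw [ff_one]; norm_num
  · rw [ff_two]; norm_num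
  · rw [h3]; norm_num
  · rw [h4]; norm_num
  · rw [h5]; norm_num
  · rw [h6]; norm_num
  · rw [h7]; norm_num

/-- the dominant root is `121/250` -/
lemma ff_lin (k : ℕ) : ff (k + 2) - 129 / 250 * ff (k + 1) + 6383 / 31250 * ff k =
    1888689 / 15625000 * (121 / 250) ^ k := by
  induction k with
  | zero => rw [ff_two, ff_one, ff_zero]; norm_num
  | succ k ih =>
    have h := ff_rec k
    unfold r0 p0 at h
    rw [pow_succ, ← mul_assoc, ← ih]
    have e1 : ff (k + 1 + 2) = ff (k + 3) := rfl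
    have e2 : ff (k + 1 + 1) = ff (k + 2) := rfl
    rw [e1, e2, h]
    ring

lemma ff_quad (k : ℕ) : (ff (k + 2) - 121 / 250 * ff (k + 1)) ^ 2
    - 129 / 250 * (ff (k + 2) - 121 / 250 * ff (k + 1)) * (ff (k + 1) - 121 / 250 * ff k)
    + 6383 / 31250 * (ff (k + 1) - 121 / 250 * ff k) ^ 2 =
    219073438753 / 7629394531250 * (6383 / 31250) ^ k := by
  induction k with
  | zero => rw [ff_two, ff_one, ff_zero]; norm_num
  | succ k ih =>
    have h := ff_rec k
    unfold r0 p0 at h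
    rw [pow_succ (6383 / 31250 : ℝ) k, ← mul_assoc, ← ih]
    have e1 : ff (k + 1 + 2) = ff (k + 3) := rfl
    have e2 : ff (k + 1 + 1) = ff (k + 2) := rfl
    rw [e1, e2, h]
    ring

lemma pow_bound (k : ℕ) : 47192 / 34423 * (219073438753 / 7629394531250) * (6383 / 31250 : ℝ) ^ (k + 8)
    ≤ (1888689 / 15625000 * (121 / 250) ^ (k + 8)) ^ 2 := by
  induction k with
  | zero => norm_num
  | succ k ih =>
    have e1 : (6383 / 31250 : ℝ) ^ (k + 1 + 8) = (6383 / 31250 : ℝ) ^ (k + 8) * (6383 / 31250) := by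
      ring
    have e2 : (1888689 / 15625000 * (121 / 250 : ℝ) ^ (k + 1 + 8)) ^ 2 =
      (1888689 / 15625000 * (121 / 250) ^ (k + 8)) ^ 2 * (121 / 250) ^ 2 := by ring
    rw [e1, e2, ← mul_assoc]
    have h3 : (0:ℝ) ≤ 47192 / 34423 * (219073438753 / 7629394531250) * (6383 / 31250 : ℝ) ^ (k + 8) := by
      positivity
    calc _ ≤ 47192 / 34423 * (219073438753 / 7629394531250) * (6383 / 31250 : ℝ) ^ (k + 8)
          * (121 / 250) ^ 2 := by
          apply mul_le_mul_of_nonneg_left _ h3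
          norm_num
      _ ≤ _ := by
          apply mul_le_mul_of_nonneg_right ih
          norm_num

lemma ff_nonneg (k : ℕ) : 0 ≤ ff k := by
  rcases lt_or_ge k 8 with hk | hk
  · exact ff_small k hk
  obtain ⟨j, rfl⟩ := Nat.exists_eq_add_of_le' hk
  have h1 := ff_lin (j + 8)
  have h2 := ff_quad (j + 8)
  have h3 := pow_bound j
  set x := ff (j + 8 + 2) - 121 / 250 * ff (j + 8 + 1) with hx
  set y := ff (j + 8 + 1) - 121 / 250 * ff (j + 8) with hy
  set l := 1888689 / 15625000 * (121 / 250 : ℝ) ^ (j + 8) with hl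
  have hl0 : 0 ≤ l := by positivity
  have h4 : (x - 8 / 250 * y) ^ 2 ≤ l ^ 2 := by
    refine le_trans ?_ h3
    rw [mul_assoc, ← h2]
    nlinarith [sq_nonneg (x - 98 / 113 * y)]
  have h5 : x - 8 / 250 * y ≤ l := by
    have := abs_le_of_sq_le_sq' h4 hl0
    exact this.2
  have h6 : 5899 / 31250 * ff (j + 8) = l - (x - 8 / 250 * y) := by
    rw [← h1, hx, hy]; ring
  have h7 : 0 ≤ 5899 / 31250 * ff (j + 8) := by rw [h6]; linarith
  linarith

lemma T_antitone (k : ℕ) : T r0 (p0 - r0) (k + 3) ≤ T r0 (p0 - r0) (k + 2) :=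
  sub_nonneg.1 (ff_nonneg k)

lemma T_nonneg (k : ℕ) : 0 ≤ T r0 (p0 - r0) (k + 2) := by
  induction k with
  | zero => show (0:ℝ) ≤ 1; norm_num
  | succ k ih =>
    have h1 := ff_nonneg (k + 2)
    have h2 : ff (k + 2) = r0 * T r0 (p0 - r0) (k + 3) + (p0 - r0) * T r0 (p0 - r0) (k + 2) := by
      have h3 : T r0 (p0 - r0) (k + 5) = T r0 (p0 - r0) (k + 4) - r0 * T r0 (p0 - r0) (k + 3)
        - (p0 - r0) * T r0 (p0 - r0) (k + 2) := T_rec r0 (p0 - r0) (k + 2)
      show T r0 (p0 - r0) (k + 4) - T r0 (p0 - r0) (k + 5) = _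
      rw [h3]; ring
    have h4 : p0 - r0 ≤ 0 := by unfold p0 r0; norm_num
    have h5 : 0 < r0 := by unfold r0; norm_num
    have h6 : 0 ≤ r0 * T r0 (p0 - r0) (k + 3) := by nlinarith
    exact nonneg_of_mul_nonneg_right h6 h5

theorem exists_process : ∃ μ : MeasureTheory.Measure (ℤ → Bool),
    IsHardCoreLaw 2 μ ∧ μ.real {x | x 0 = true} = 693633 / 1953125 :=
  exists_renewal (p := p0) (r := r0) (by unfold p0; norm_num) T_nonneg T_antitone

end Pool.Agent.H643R3
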