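import Pool.Agent.H643R3.Seq

/-!
# Stationary `k`-dependent hard-core processes on `ℤ`: definitions and general construction
-/

set_option autoImplicit false

open MeasureTheory ProbabilityTheory Filter Topology

namespace Pool.Agent.H643R3

/-- `μ` is the law of a stationary `k`-dependent hard-core process on `ℤ`. -/
structure IsHardCoreLaw (k : ℕ) (μ : Measure (ℤ → Bool)) : Prop where
  /-- `μ` is a probability measure -/
  prob : IsProbabilityMeasure μ
  /-- `μ` is invariant under the shift -/
  stationary : μ.map (fun x i => x (i + 1)) = μ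
  /-- almost surely no two neighbours are both occupied -/
  hardcore : ∀ᵐ x ∂μ, ∀ i, ¬ (x i = true ∧ x (i + 1) = true)
  /-- families of sites at distance more than `k` are independent -/
  dep : ∀ A B : Set ℤ, (∀ a ∈ A, ∀ b ∈ B, (k : ℤ) < |a - b|) →
    IndepFun (fun (x : ℤ → Bool) (a : A) => x a) (fun (x : ℤ → Bool) (b : B) => x b) μ

/-- The maximal density `p_k` of stationary `k`-dependent hard-core processes on `ℤ`. -/
noncomputable def maxDensity (k : ℕ) : ℝ :=
  sSup {t | ∃ μ : Measure (ℤ → Bool), IsHardCoreLaw k μ ∧ μ.real {x | x 0 = true} = t}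

/-- cylinder event -/
def cyl (S : Finset ℤ) : Set (ℤ → Bool) := {x | ∀ i ∈ S, x i = true}

lemma cyl_inter (S T : Finset ℤ) : cyl S ∩ cyl T = cyl (S ∪ T) := by
  ext x
  simp only [cyl, Set.mem_inter_iff, Set.mem_ofPred_eq, Finset.mem_union]
  constructor
  · rintro ⟨h1, h2⟩ i (hi | hi)
    exacts [h1 i hi, h2 i hi]
  · intro h
    exact ⟨fun i hi => h i (Or.inl hi), fun i hi => h i (Or.inr hi)⟩

lemma isClopen_cyl (S : Finset ℤ) : IsClopen (cyl S) := by
  have : cyl S = ⋂ i ∈ S, (fun x : ℤ → Bool => x i) ⁻¹' {true} := by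
    ext x; simp [cyl]
  rw [this]
  exact isClopen_biInter_finset fun i _ => (isClopen_discrete _).preimage (continuous_apply i)

lemma measurableSet_cyl (S : Finset ℤ) : MeasurableSet (cyl S) := (isClopen_cyl S).isOpen.measurableSet

/-- the generating π-system of the coordinates in `A` -/
def piA (A : Set ℤ) : Set (Set (ℤ → Bool)) := {s | ∃ S : Finset ℤ, ↑S ⊆ A ∧ cyl S = s}

lemma isPiSystem_piA (A : Set ℤ) : IsPiSystem (piA A) := by
  rintro _ ⟨S, hS, rfl⟩ _ ⟨T, hT, rfl⟩ _
  exact ⟨S ∪ T, by simp [hS, hT], (cyl_inter S T).symm⟩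

lemma comap_eq (A : Set ℤ) :
    MeasurableSpace.comap (fun (x : ℤ → Bool) (a : A) => x a) inferInstance =
      MeasurableSpace.generateFrom (piA A) := by
  apply le_antisymm
  · rw [← measurable_iff_comap_le]
    rw [@measurable_pi_iff]
    rintro ⟨a, ha⟩
    have h1 : MeasurableSet[MeasurableSpace.generateFrom (piA A)] {x : ℤ → Bool | x a = true} := by
      apply MeasurableSpace.measurableSet_generateFrom
      exact ⟨{a}, by simpa using ha, by ext x; simp [cyl]⟩
    apply @measurable_to_bool _ (MeasurableSpace.generateFrom (piA A))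
    exact h1
  · apply MeasurableSpace.generateFrom_le
    rintro _ ⟨S, hS, rfl⟩
    refine ⟨⋂ i ∈ S.attach, (fun x : A → Bool => x ⟨i, hS i.2⟩) ⁻¹' {true}, ?_, ?_⟩
    · apply Finset.measurableSet_biInter
      intro i _
      exact measurable_pi_apply _ (measurableSet_singleton _)
    · ext x
      simp [cyl]

lemma generateFrom_univ :
    (inferInstance : MeasurableSpace (ℤ → Bool)) = MeasurableSpace.generateFrom (piA Set.univ) := by
  rw [← comap_eq]
  apply le_antisymm
  · rintro s hs
    refine ⟨(fun (y : ↥(Set.univ : Set ℤ) → Bool) (i : ℤ) => y ⟨i, trivial⟩) ⁻¹' s, ?_, ?_⟩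
    · exact (measurable_pi_lambda _ fun i => measurable_pi_apply _) hs
    · rfl
  · rw [← measurable_iff_comap_le]
    exact measurable_pi_lambda _ fun i => measurable_pi_apply _

/-- If a family of numbers `ρ S` is eventually the family of correlations of probability measures,
then it is the family of correlations of a probability measure. -/
lemma exists_limit (ρ : Finset ℤ → ℝ) (μ : ℕ → ProbabilityMeasure (ℤ → Bool))
    (h : ∀ S, ∀ᶠ n in atTop, ((μ n : Measure (ℤ → Bool))).real (cyl S) = ρ S) :
    ∃ ν : Measure (ℤ → Bool), IsProbabilityMeasure ν ∧ ∀ S, ν.real (cyl S) = ρ S := by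
  obtain ⟨ν, hν⟩ : ∃ ν, Tendsto μ (hyperfilter ℕ) (𝓝 ν) := by
    have h1 := (Ultrafilter.map μ (hyperfilter ℕ)).le_nhds_lim
    exact ⟨_, h1⟩
  refine ⟨ν, inferInstance, fun S => ?_⟩
  have h2 := ProbabilityMeasure.tendsto_measure_of_null_frontier_of_tendsto' hν
    (E := cyl S) (by rw [(isClopen_cyl S).frontier_eq]; simp)
  have h3 : Tendsto (fun i => (μ i : Measure (ℤ → Bool)).real (cyl S)) (hyperfilter ℕ)
      (𝓝 ((ν : Measure (ℤ → Bool)).real (cyl S))) :=
    (ENNReal.tendsto_toReal (measure_ne_top _ _)).comp h2
  have h4 : Tendsto (fun i => (μ i : Measure (ℤ → Bool)).real (cyl S)) (hyperfilter ℕ)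
      (𝓝 (ρ S)) := by
    have h5 : ∀ᶠ i in (hyperfilter ℕ : Filter ℕ), (μ i : Measure (ℤ → Bool)).real (cyl S) = ρ S := by
      have := h S
      rw [← Nat.cofinite_eq_atTop] at this
      exact hyperfilter_le_cofinite this
    exact tendsto_const_nhds.congr' (h5.mono fun i hi => hi.symm)
  exact tendsto_nhds_unique h3 h4

/-- A probability measure on `ℤ → Bool` with correlations `rho` is the law of a stationary
`2`-dependent hard-core process. -/
lemma isHardCoreLaw_of_rho {p r : ℝ} (μ : Measure (ℤ → Bool)) [IsProbabilityMeasure μ]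
    (h : ∀ S, μ.real (cyl S) = rho p r S) : IsHardCoreLaw 2 μ := by
  have hmeas : Measurable (fun (x : ℤ → Bool) (i : ℤ) => x (i + 1)) :=
    measurable_pi_lambda _ fun i => measurable_pi_apply _
  refine ⟨inferInstance, ?_, ?_, ?_⟩
  · have : IsProbabilityMeasure (μ.map (fun (x : ℤ → Bool) (i : ℤ) => x (i + 1))) :=
      Measure.isProbabilityMeasure_map hmeas.aemeasurable
    apply ext_of_generate_finite (piA Set.univ) generateFrom_univ (isPiSystem_piA _)
    · rintro _ ⟨S, -, rfl⟩
      rw [Measure.map_apply hmeas (measurableSet_cyl S)]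
      have h1 : (fun (x : ℤ → Bool) (i : ℤ) => x (i + 1)) ⁻¹' cyl S =
          cyl (S.map (addRightEmbedding 1)) := by
        ext x
        simp [cyl]
      rw [h1, ← ENNReal.toReal_eq_toReal_iff' (measure_ne_top _ _) (measure_ne_top _ _)]
      have h2 := h (S.map (addRightEmbedding 1))
      have h3 := h S
      unfold Measure.real at h2 h3
      rw [h2, h3]
      unfold rho
      rw [Finset.prod_map]
      apply Finset.prod_congr rfl
      intro i _
      unfold g
      have e1 : (addRightEmbedding (1:ℤ)) i + 1 ∈ S.map (addRightEmbedding 1) ↔ i + 1 ∈ S := by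
        simp only [Finset.mem_map, addRightEmbedding_apply, add_left_inj, exists_eq_right]
      have e2 : (addRightEmbedding (1:ℤ)) i + 2 ∈ S.map (addRightEmbedding 1) ↔ i + 2 ∈ S := by
        rw [addRightEmbedding_apply, show i + 1 + 2 = (i + 2) + 1 by ring]
        simp only [Finset.mem_map, addRightEmbedding_apply, add_left_inj, exists_eq_right]
      simp only [e1, e2]
    · simp
  · rw [ae_all_iff]
    intro i
    have h1 : μ.real (cyl {i, i + 1}) = 0 := by
      rw [h]
      unfold rho
      apply Finset.prod_eq_zero (i := i) (by simp)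
      simp [g]
    rw [measureReal_eq_zero_iff] at h1
    rw [ae_iff]
    refine measure_mono_null ?_ h1
    intro x hx
    simpa [cyl] using hx
  · intro A B hAB
    rw [IndepFun_iff_Indep, comap_eq, comap_eq]
    apply IndepSets.indep' _ _ (isPiSystem_piA A) (isPiSystem_piA B)
    · rw [IndepSets_iff]
      rintro _ _ ⟨S, hS, rfl⟩ ⟨T, hT, rfl⟩
      have hdist : ∀ s ∈ S, ∀ t ∈ T, (2 : ℤ) < |s - t| := fun s hs t ht => hAB s (hS hs) t (hT ht)
      have hdisj : Disjoint S T := by
        rw [Finset.disjoint_left]
        intro a ha hb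
        have := hdist a ha a hb
        simp at this
      rw [cyl_inter, ← ENNReal.toReal_eq_toReal_iff' (measure_ne_top _ _)
        (ENNReal.mul_ne_top (measure_ne_top _ _) (measure_ne_top _ _)), ENNReal.toReal_mul]
      have h1 := h S
      have h2 := h T
      have h3 := h (S ∪ T)
      unfold Measure.real at h1 h2 h3
      rw [h1, h2, h3]
      unfold rho
      rw [Finset.prod_union hdisj]
      congr 1
      · apply Finset.prod_congr rfl
        intro i hi
        have e1 : i + 1 ∈ S ∪ T ↔ i + 1 ∈ S := by
          rw [Finset.mem_union]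
          refine or_iff_left fun ht => ?_
          have := hdist i hi _ ht
          rw [show i - (i + 1) = -1 by ring] at this
          norm_num at this
        have e2 : i + 2 ∈ S ∪ T ↔ i + 2 ∈ S := by
          rw [Finset.mem_union]
          refine or_iff_left fun ht => ?_
          have := hdist i hi _ ht
          rw [show i - (i + 2) = -2 by ring] at this
          norm_num at this
        unfold g
        simp only [e1, e2]
      · apply Finset.prod_congr rfl
        intro i hi
        have e1 : i + 1 ∈ S ∪ T ↔ i + 1 ∈ T := by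
          rw [Finset.mem_union]
          refine or_iff_right fun ht => ?_
          have := hdist _ ht i hi
          rw [show i + 1 - i = 1 by ring] at this
          norm_num at this
        have e2 : i + 2 ∈ S ∪ T ↔ i + 2 ∈ T := by
          rw [Finset.mem_union]
          refine or_iff_right fun ht => ?_
          have := hdist _ ht i hi
          rw [show i + 2 - i = 2 by ring] at this
          norm_num at this
        unfold g
        simp only [e1, e2]
    · rintro _ ⟨S, hS, rfl⟩; exact measurableSet_cyl S
    · rintro _ ⟨S, hS, rfl⟩; exact measurableSet_cyl S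

end Pool.Agent.H643R3
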