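import Mathlib

/-!
# The window weights of the renewal process and their correlation function
-/

set_option autoImplicit false

namespace Pool.Agent.H643R3

/-- `T r s (n + 2)` is the survival function `P(gap > n)`. -/
noncomputable def T (r s : ℝ) : ℕ → ℝ
  | 0 => 0
  | 1 => 0
  | 2 => 1
  | (n + 3) => T r s (n + 2) - r * T r s (n + 1) - s * T r s n

/-- weight of a pattern (`true` = occupied, `false` = free) given that the last occupied site is
`k` steps to the left -/
noncomputable def G (r s : ℝ) : ℕ → List Bool → ℝ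
  | k, [] => T r s (k + 2)
  | k, (true :: c) => (T r s (k + 2) - T r s (k + 3)) * G r s 0 c
  | k, (false :: c) => G r s (k + 1) c + (T r s (k + 2) - T r s (k + 3)) * G r s 0 c

/-- coefficients of `G` in terms of `T` -/
noncomputable def abc (r s : ℝ) : List Bool → ℝ × ℝ × ℝ
  | [] => (1, 0, 0)
  | (true :: c) => (0, r * (abc r s c).1, s * (abc r s c).1)
  | (false :: c) => ((abc r s c).1 + (abc r s c).2.1, (abc r s c).2.2, 0)

lemma T_rec (r s : ℝ) (n : ℕ) :
    T r s (n + 3) = T r s (n + 2) - r * T r s (n + 1) - s * T r s n := by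
  rw [T]

lemma G_eq (r s : ℝ) (c : List Bool) : ∀ k, G r s k c =
    (abc r s c).1 * T r s (k + 2) + (abc r s c).2.1 * T r s (k + 1) + (abc r s c).2.2 * T r s k := by
  induction c with
  | nil => intro k; simp [G, abc]
  | cons a c ih =>
    intro k
    have h0 : G r s 0 c = (abc r s c).1 := by rw [ih]; simp [T]
    cases a with
    | false =>
      rw [G, h0, ih, abc, show k + 1 + 2 = k + 3 from rfl, show k + 1 + 1 = k + 2 from rfl, T_rec]
      ring
    | true =>
      rw [G, h0, abc, T_rec]
      ring

lemma G_zero (r s : ℝ) (c : List Bool) : G r s 0 c = (abc r s c).1 := by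
  rw [G_eq]; simp [T]

lemma G_nonneg {r s : ℝ} (hT : ∀ k, 0 ≤ T r s (k + 2)) (hf : ∀ k, T r s (k + 3) ≤ T r s (k + 2))
    (c : List Bool) : ∀ k, 0 ≤ G r s k c := by
  induction c with
  | nil => intro k; exact hT k
  | cons a c ih =>
    intro k
    have h := mul_nonneg (sub_nonneg.2 (hf k)) (ih 0)
    cases a with
    | false => rw [G]; exact add_nonneg (ih _) h
    | true => rw [G]; exact h

/-- the pattern of `S` on the `n` sites starting at `a` -/
def L (S : Finset ℤ) : ℤ → ℕ → List Bool
  | _, 0 => []
  | a, (n + 1) => decide (a ∈ S) :: L S (a + 1) n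

/-- local factor -/
noncomputable def g (p r : ℝ) (S : Finset ℤ) (i : ℤ) : ℝ :=
  if i + 1 ∈ S then 0 else if i + 2 ∈ S then r else p

/-- the correlation function of the process -/
noncomputable def rho (p r : ℝ) (S : Finset ℤ) : ℝ := ∏ i ∈ S, g p r S i

/-- partial product of the correlation function -/
noncomputable def Pi (p r : ℝ) (S : Finset ℤ) (a : ℤ) : ℝ := ∏ i ∈ S.filter (a ≤ ·), g p r S i

lemma Pi_of_notMem (p r : ℝ) (S : Finset ℤ) (a : ℤ) (h : a ∉ S) : Pi p r S a = Pi p r S (a + 1) := by
  unfold Pi
  congr 1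
  ext i
  simp only [Finset.mem_filter]
  constructor
  · rintro ⟨h1, h2⟩
    refine ⟨h1, ?_⟩
    rcases eq_or_lt_of_le h2 with h3 | h3
    · exact absurd (h3 ▸ h1) h
    · omega
  · rintro ⟨h1, h2⟩
    exact ⟨h1, by omega⟩

lemma Pi_of_mem (p r : ℝ) (S : Finset ℤ) (a : ℤ) (h : a ∈ S) :
    Pi p r S a = g p r S a * Pi p r S (a + 1) := by
  unfold Pi
  have : S.filter (a ≤ ·) = insert a (S.filter (a + 1 ≤ ·)) := by
    ext i
    simp only [Finset.mem_filter, Finset.mem_insert]
    constructor
    · rintro ⟨h1, h2⟩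
      rcases eq_or_lt_of_le h2 with h3 | h3
      · exact Or.inl h3.symm
      · exact Or.inr ⟨h1, by omega⟩
    · rintro (rfl | ⟨h1, h2⟩)
      · exact ⟨h, le_refl _⟩
      · exact ⟨h1, by omega⟩
  rw [this, Finset.prod_insert]
  simp

lemma Pi_eq_one (p r : ℝ) (S : Finset ℤ) (a : ℤ) (h : ∀ i ∈ S, i < a) : Pi p r S a = 1 := by
  unfold Pi
  have : S.filter (a ≤ ·) = ∅ := by
    ext i
    simp only [Finset.mem_filter, Finset.notMem_empty, iff_false, not_and, not_le]
    exact h i
  rw [this, Finset.prod_empty]

lemma key (p r : ℝ) (S : Finset ℤ) : ∀ (n : ℕ) (a : ℤ), (∀ i ∈ S, i < a + n) →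
    (abc r (p - r) (L S a n)).1 + (abc r (p - r) (L S a n)).2.1 + (abc r (p - r) (L S a n)).2.2
      = Pi p r S a ∧
    p * (abc r (p - r) (L S a n)).1 =
      (if a ∈ S then 0 else if a + 1 ∈ S then r else p) * Pi p r S a := by
  intro n
  induction n using Nat.strong_induction_on with
  | _ n ih =>
    intro a ha
    rcases n with _ | n
    · have h1 : ∀ i ∈ S, i < a := by simpa using ha
      have h2 : a ∉ S := fun h => lt_irrefl _ (h1 a h)
      have h3 : a + 1 ∉ S := fun h => by have := h1 _ h; omega
      rw [Pi_eq_one p r S a h1]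
      simp [L, abc, h2, h3]
    · have hn : ∀ i ∈ S, i < (a + 1) + n := by
        intro i hi
        have := ha i hi
        push_cast at this
        omega
      obtain ⟨ih1, ih2⟩ := ih n (by omega) (a + 1) hn
      by_cases hm : a ∈ S
      · have hL : L S a (n + 1) = true :: L S (a + 1) n := by simp [L, hm]
        rw [hL, abc]
        simp only [hm, if_true, zero_mul, mul_zero, and_true]
        rw [Pi_of_mem p r S a hm, g, show a + 2 = a + 1 + 1 by ring, ← ih2]
        ring
      · have hL : L S a (n + 1) = false :: L S (a + 1) n := by simp [L, hm]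
        rw [hL, abc]
        simp only [hm, if_false]
        rw [Pi_of_notMem p r S a hm, ← ih1]
        refine ⟨by ring, ?_⟩
        rcases n with _ | n
        · have h3 : a + 1 ∉ S := fun h => by have := ha _ h; simp at this
          simp [L, abc, h3]
        · have hn' : ∀ i ∈ S, i < (a + 1 + 1) + n := by
            intro i hi
            have := ha i hi
            push_cast at this
            omega
          obtain ⟨ih3, ih4⟩ := ih n (by omega) (a + 1 + 1) hn'
          by_cases hm1 : a + 1 ∈ S
          · have hL1 : L S (a + 1) (n + 1) = true :: L S (a + 1 + 1) n := by simp [L, hm1]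
            rw [hL1, abc]
            simp only [hm1, if_true]
            ring
          · have hL1 : L S (a + 1) (n + 1) = false :: L S (a + 1 + 1) n := by simp [L, hm1]
            rw [hL1, abc]
            simp only [hm1, if_false]
            ring

lemma G_pattern {p r : ℝ} (hp : p ≠ 0) (S : Finset ℤ) (a : ℤ) (n : ℕ) (h1 : ∀ i ∈ S, i < a + n)
    (h2 : ∀ i ∈ S, a + 2 ≤ i) : G r (p - r) 0 (L S a n) = rho p r S := by
  rw [G_zero]
  have h := (key p r S n a h1).2
  have ha : a ∉ S := fun h => by have := h2 _ h; omega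
  have ha1 : a + 1 ∉ S := fun h => by have := h2 _ h; omega
  rw [if_neg ha, if_neg ha1] at h
  rw [mul_left_cancel₀ hp h]
  unfold Pi rho
  rw [Finset.filter_true_of_mem]
  intro i hi
  have := h2 _ hi
  omega

end Pool.Agent.H643R3
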