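import Pool.Agent.H643R3.TreeCut

/-!
# Existence of the critical bias
-/

set_option autoImplicit false

open Filter Topology

namespace Pool.Agent.H643R3.Tree


lemma lv_card (n : ℕ) : (lv n).card ≤ 4 ^ n := by
  induction n with
  | zero => simp [lv]
  | succ n ih =>
    rw [lv]
    refine Finset.card_image_le.trans ?_
    rw [Finset.card_product, pow_succ, mul_comm]
    exact Nat.mul_le_mul ih (by decide)

lemma path_inj : Function.Injective path := by
  intro l
  induction l with
  | nil =>
    intro l' h
    cases l' with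
    | nil => rfl
    | cons d l' =>
      have := congrArg List.length h
      rw [path_length, path_length] at this
      simp at this
  | cons d l ih =>
    intro l' h
    cases l' with
    | nil =>
      have := congrArg List.length h
      rw [path_length, path_length] at this
      simp at this
    | cons d' l' =>
      rw [path, path, List.cons.injEq] at h
      have h1 := ih h.2
      subst h1
      rw [add_right_cancel h.1]

lemma sum_level {b : ℝ} {θ : List (ℤ × ℤ) → ℝ} (h : IsFiniteEnergyFlow b θ) (n : ℕ) :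
    ∑ l ∈ lv n, θ (path l) = 1 := by
  induction n with
  | zero => simp [lv, path, h.root]
  | succ n ih =>
    rw [lv, Finset.sum_image, Finset.sum_product_right]
    · rw [← ih]
      apply Finset.sum_congr rfl
      intro l _
      by_cases hG : IsHalfPlaneSAW (path l)
      · rw [h.cons _ hG, sum_dirs]
        apply Finset.sum_congr rfl
        intro d _
        rw [path_head, add_comm]
        rfl
      · rw [h.supp _ hG]
        apply Finset.sum_eq_zero
        intro d _
        apply h.supp
        simp only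
        rw [good_path_cons]
        exact fun h => hG h.1
    · rintro ⟨d, l⟩ _ ⟨d', l'⟩ _ h
      simpa using h

lemma recurrent_eighth : Recurrent (1 / 8) := by
  classical
  rintro ⟨θ, hθ⟩
  obtain ⟨n, hn⟩ := pow_unbounded_of_one_lt (∑' w, θ w ^ 2 / (1 / 8 : ℝ) ^ w.length)
    (one_lt_two : (1 : ℝ) < 2)
  have h1 : ∑ w ∈ (lv n).image path, θ w ^ 2 / (1 / 8 : ℝ) ^ w.length ≤
      ∑' w, θ w ^ 2 / (1 / 8 : ℝ) ^ w.length := hθ.energy.sum_le_tsum _ (fun w _ => by positivity)
  rw [Finset.sum_image (fun a _ b _ e => path_inj e)] at h1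
  have hne : (lv n).Nonempty := by
    rw [Finset.nonempty_iff_ne_empty]
    intro e
    have := sum_level hθ n
    rw [e] at this
    simp at this
  have h2 := Finset.sq_sum_div_le_sum_sq_div (lv n) (fun l => θ (path l))
    (g := fun l => (1 / 8 : ℝ) ^ (path l).length) (fun l _ => by positivity)
  rw [sum_level hθ n, one_pow] at h2
  have h3 : ∑ l ∈ lv n, (1 / 8 : ℝ) ^ (path l).length ≤ (1 / 2) ^ n := by
    calc _ = ∑ l ∈ lv n, (1 / 8 : ℝ) ^ (n + 1) := by
          apply Finset.sum_congr rfl
          intro l hl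
          rw [path_length, lv_length n l hl]
      _ = (lv n).card * (1 / 8 : ℝ) ^ (n + 1) := by rw [Finset.sum_const, nsmul_eq_mul]
      _ ≤ (4 ^ n : ℝ) * (1 / 8 : ℝ) ^ (n + 1) := by
          apply mul_le_mul_of_nonneg_right _ (by positivity)
          exact_mod_cast lv_card n
      _ = (1 / 2) ^ n * (1 / 8) := by
          rw [pow_succ, ← mul_assoc, ← mul_pow]; norm_num
      _ ≤ (1 / 2) ^ n := by
          have : (0 : ℝ) < (1 / 2) ^ n := by positivity
          linarith
  have h4 : (2 : ℝ) ^ n ≤ 1 / ∑ l ∈ lv n, (1 / 8 : ℝ) ^ (path l).length := by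
    have h5 : 0 < ∑ l ∈ lv n, (1 / 8 : ℝ) ^ (path l).length :=
      Finset.sum_pos (fun l _ => by positivity) hne
    rw [le_div_iff₀ h5]
    calc _ ≤ (2 : ℝ) ^ n * (1 / 2) ^ n := mul_le_mul_of_nonneg_left h3 (by positivity)
      _ = 1 := by rw [← mul_pow]; norm_num
  linarith [h4.trans (h2.trans h1)]

lemma recurrent_mono {b b' : ℝ} (hb : 0 < b) (hbb : b ≤ b') (h : Recurrent b') : Recurrent b := by
  rintro ⟨θ, hθ⟩
  apply h
  refine ⟨θ, hθ.supp, hθ.root, hθ.cons, ?_⟩
  refine Summable.of_nonneg_of_le (fun w => ?_) (fun w => ?_) hθ.energy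
  · have : 0 < b' := by linarith
    positivity
  · apply div_le_div_of_nonneg_left (sq_nonneg _) (by positivity)
    exact pow_le_pow_left₀ hb.le hbb _

lemma transient_of_one_lt {b : ℝ} (hb : 1 < b) : ¬ Recurrent b := by
  have hA : Adm 1 {[((0, 1) : ℤ × ℤ)]} := by
    intro β hβ
    rw [Finset.mem_singleton] at hβ
    subst hβ
    have e : path [((0, 1) : ℤ × ℤ)] = [(0, 1), (0, 0)] := rfl
    refine ⟨?_, rfl, ?_⟩
    · rw [e, good_cons (by simp)]
      exact ⟨good_root, by simp, by simp, by simp⟩
    · rw [e]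
      simp
  refine not_recurrent (k := 1) le_rfl hA (by linarith) ?_
  simpa [tot] using hb

/-- a critical bias exists -/
theorem exists_critical : ∃ c, IsCritical c := by
  set S : Set ℝ := {b | 0 < b ∧ Recurrent b} with hS
  have hne : S.Nonempty := ⟨1 / 8, by norm_num, recurrent_eighth⟩
  have hbdd : BddAbove S := by
    refine ⟨1, ?_⟩
    rintro b ⟨-, hb⟩
    by_contra hc
    push Not at hc
    exact transient_of_one_lt hc hb
  refine ⟨sSup S, ?_, ?_, ?_⟩
  · exact lt_of_lt_of_le (by norm_num : (0 : ℝ) < 1 / 8)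
      (le_csSup hbdd ⟨by norm_num, recurrent_eighth⟩)
  · intro b hb hbc
    obtain ⟨b', hb', hlt⟩ := exists_lt_of_lt_csSup hne hbc
    exact recurrent_mono hb hlt.le hb'.2
  · intro b hb hR
    have hpos : 0 < b := by
      have : (0 : ℝ) < sSup S := lt_of_lt_of_le (by norm_num : (0 : ℝ) < 1 / 8)
        (le_csSup hbdd ⟨by norm_num, recurrent_eighth⟩)
      linarith
    exact absurd (le_csSup hbdd ⟨hpos, hR⟩) (not_le.2 hb)

end Pool.Agent.H643R3.Tree
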