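import Pool.Agent.H643R3.TreeFlow2

/-!
# Rectangle cutsets of bounded conductance and recurrence at the critical bias
-/

set_option autoImplicit false

open Filter Topology

namespace Pool.Agent.H643R3.Tree


/-- half-plane walks inside the rectangle `[-m, m] × [0, k)` -/
def InS (m k : ℕ) : Set (List (ℤ × ℤ)) := {w | IsHalfPlaneSAW w ∧ ∀ p ∈ w, |p.1| ≤ m ∧ p.2 < k}

lemma InS_finite (m k : ℕ) : (InS m k).Finite := by
  set R : Finset (ℤ × ℤ) := Finset.Icc (-(m : ℤ)) m ×ˢ Finset.Ico 0 (k : ℤ) with hR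
  have h1 : {l : List R | l.length ≤ R.card}.Finite := List.finite_length_le _ _
  refine (h1.image (fun l => l.map Subtype.val)).subset ?_
  rintro w ⟨hw, hp⟩
  have h2 : ∀ p ∈ w, p ∈ R := by
    intro p hpw
    obtain ⟨h3, h4⟩ := hp p hpw
    have h5 := hw.2.2.2 p hpw
    rw [hR, Finset.mem_product, Finset.mem_Icc, Finset.mem_Ico]
    rw [abs_le] at h3
    exact ⟨h3, h5, h4⟩
  have h3 : w.length ≤ R.card := by
    rw [← List.toFinset_card_of_nodup hw.1]
    apply Finset.card_le_card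
    intro p hpw
    exact h2 p (List.mem_toFinset.1 hpw)
  lift w to List R using h2
  exact ⟨w, by simpa using h3, rfl⟩

open Classical in
/-- finset version -/
noncomputable def I (m k : ℕ) : Finset (List (ℤ × ℤ)) := (InS_finite m k).toFinset

lemma mem_I {m k : ℕ} {w : List (ℤ × ℤ)} : w ∈ I m k ↔ IsHalfPlaneSAW w ∧ ∀ p ∈ w, |p.1| ≤ m ∧ p.2 < k := by
  rw [I, Set.Finite.mem_toFinset]; rfl

open Classical in
/-- the cutset of walks leaving the rectangle at their last step -/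
noncomputable def O (m k : ℕ) : Finset (List (ℤ × ℤ)) :=
  ((I m k ×ˢ dirsF).image (fun x => (x.1.headD (0, 0) + x.2) :: x.1)).filter
    (fun w => IsHalfPlaneSAW w ∧ w ∉ I m k)

lemma root_mem_I {m k : ℕ} (hk : 1 ≤ k) : [((0, 0) : ℤ × ℤ)] ∈ I m k := by
  rw [mem_I]
  refine ⟨good_root, ?_⟩
  intro p hp
  rw [List.mem_singleton] at hp
  subst hp
  simp
  omega

/-- flow through the cutset -/
lemma sum_O {b : ℝ} {θ : List (ℤ × ℤ) → ℝ} (h : IsFiniteEnergyFlow b θ) {m k : ℕ} (hk : 1 ≤ k) :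
    ∑ w ∈ O m k, θ w = 1 := by
  classical
  set child : List (ℤ × ℤ) × (ℤ × ℤ) → List (ℤ × ℤ) := fun x => (x.1.headD (0, 0) + x.2) :: x.1
    with hchild
  have hinj : Function.Injective child := by
    rintro ⟨u, d⟩ ⟨u', d'⟩ e
    simp only [hchild, List.cons.injEq] at e
    obtain ⟨e1, rfl⟩ := e
    rw [add_left_cancel e1]
  have h1 : ∑ u ∈ I m k, θ u = ∑ w ∈ (I m k ×ˢ dirsF).image child, θ w := by
    rw [Finset.sum_image (fun x _ y _ e => hinj e), Finset.sum_product]
    apply Finset.sum_congr rfl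
    intro u hu
    rw [h.cons u (mem_I.1 hu).1, sum_dirs]
  have h2 : ∑ w ∈ (I m k ×ˢ dirsF).image child, θ w = ∑ w ∈ O m k, θ w +
      ∑ w ∈ (I m k).erase [(0, 0)], θ w := by
    rw [← Finset.sum_filter_add_sum_filter_not ((I m k ×ˢ dirsF).image child)
      (fun w => IsHalfPlaneSAW w ∧ w ∉ I m k)]
    congr 1
    have h3 : (I m k).erase [(0, 0)] ⊆
        ((I m k ×ˢ dirsF).image child).filter (fun w => ¬ (IsHalfPlaneSAW w ∧ w ∉ I m k)) := by
      intro w hw
      rw [Finset.mem_erase] at hw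
      rw [Finset.mem_filter]
      refine ⟨?_, fun h => h.2 hw.2⟩
      rw [Finset.mem_image]
      obtain ⟨hg, hp⟩ := mem_I.1 hw.2
      rcases w with _ | ⟨v, u⟩
      · exact absurd hg not_good_nil
      · rcases u with _ | ⟨a, t⟩
        · exact absurd (by rw [good_single hg]) hw.1
        · have hg' := (good_cons (by simp)).1 hg
          refine ⟨(a :: t, v - a), ?_, ?_⟩
          · rw [Finset.mem_product, mem_I, mem_dirsF]
            refine ⟨⟨hg'.1, fun p hp' => hp p (List.mem_cons_of_mem _ hp')⟩, ?_⟩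
            exact step_mem_dirs hg'.2.2.1
          · simp [hchild]
    symm
    apply Finset.sum_subset h3
    intro w hw hw2
    rw [Finset.mem_filter, Finset.mem_image] at hw
    obtain ⟨⟨x, hx, rfl⟩, hw3⟩ := hw
    by_cases hG : IsHalfPlaneSAW (child x)
    · have h4 : child x ∈ I m k := by
        by_contra h5
        exact hw3 ⟨hG, h5⟩
      exfalso
      apply hw2
      rw [Finset.mem_erase]
      refine ⟨?_, h4⟩
      intro e
      rw [Finset.mem_product] at hx
      have h6 := good_ne_nil (mem_I.1 hx.1).1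
      simp only [hchild, List.cons.injEq] at e
      exact h6 e.2
    · exact h.supp _ hG
  have h4 : ∑ u ∈ I m k, θ u = θ [(0, 0)] + ∑ w ∈ (I m k).erase [(0, 0)], θ w :=
    (Finset.add_sum_erase _ _ (root_mem_I hk)).symm
  have h5 := h.root
  linarith

lemma mem_O {m k : ℕ} {w : List (ℤ × ℤ)} (h : w ∈ O m k) :
    ∃ v u, w = v :: u ∧ u ∈ I m k ∧ IsHalfPlaneSAW w ∧ |v.1| ≤ m + 1 ∧ v.2 ≤ k ∧ 0 ≤ v.2 ∧
      ¬ (|v.1| ≤ m ∧ v.2 < k) := by
  classical
  rw [O, Finset.mem_filter, Finset.mem_image] at h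
  obtain ⟨⟨⟨u, d⟩, hx, rfl⟩, hG, hI⟩ := h
  rw [Finset.mem_product] at hx
  obtain ⟨hu, hd⟩ := hx
  simp only at hu hd hG hI ⊢
  obtain ⟨hgu, hpu⟩ := mem_I.1 hu
  have hun := good_ne_nil hgu
  have hg := (good_cons hun).1 hG
  have hd' := dirs_step ((mem_dirsF d).1 hd)
  obtain ⟨a, t, rfl⟩ := List.exists_cons_of_ne_nil hun
  simp only [List.headD_cons] at hG hI hg ⊢
  obtain ⟨ha1, ha2⟩ := hpu a List.mem_cons_self
  refine ⟨_, _, rfl, hu, hG, ?_, ?_, hg.2.2.2, ?_⟩
  · have h1 := abs_add_le a.1 d.1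
    have h2 : 0 ≤ |d.2| := abs_nonneg _
    rw [Prod.fst_add]
    omega
  · have h1 := le_abs_self d.2
    have h2 : 0 ≤ |d.1| := abs_nonneg _
    rw [Prod.snd_add]
    omega
  · intro h3
    apply hI
    rw [mem_I]
    refine ⟨hG, fun p hp => ?_⟩
    rcases List.mem_cons.1 hp with rfl | hp
    · exact h3
    · exact hpu p hp

/-- vertical extension of a walk -/
def up (w : List (ℤ × ℤ)) : ℕ → List (ℤ × ℤ)
  | 0 => w
  | (j + 1) => ((w.headD (0, 0)).1, (w.headD (0, 0)).2 + (j + 1)) :: up w j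

lemma up_length (w : List (ℤ × ℤ)) (j : ℕ) : (up w j).length = w.length + j := by
  induction j with
  | zero => rfl
  | succ j ih => rw [up, List.length_cons, ih]; rfl

lemma up_ne_nil (v : ℤ × ℤ) (u : List (ℤ × ℤ)) (j : ℕ) : up (v :: u) j ≠ [] := by
  cases j <;> simp [up]

lemma up_head (v : ℤ × ℤ) (u : List (ℤ × ℤ)) (j : ℕ) :
    (up (v :: u) j).headD (0, 0) = (v.1, v.2 + j) := by
  cases j <;> simp [up]

lemma mem_up {v : ℤ × ℤ} {u : List (ℤ × ℤ)} {j : ℕ} {p : ℤ × ℤ} (h : p ∈ up (v :: u) j) :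
    p ∈ u ∨ (p.1 = v.1 ∧ v.2 ≤ p.2 ∧ p.2 ≤ v.2 + j) := by
  induction j with
  | zero =>
    rcases List.mem_cons.1 h with rfl | h
    · right; simp
    · left; exact h
  | succ j ih =>
    rw [up] at h
    rcases List.mem_cons.1 h with rfl | h
    · right
      simp
      omega
    · rcases ih h with h1 | ⟨h1, h2, h3⟩
      · left; exact h1
      · right
        refine ⟨h1, h2, ?_⟩
        push_cast
        omega

lemma up_good {m : ℕ} {v : ℤ × ℤ} {u : List (ℤ × ℤ)} (hG : IsHalfPlaneSAW (v :: u)) (hv : |v.1| = m + 1)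
    (hu : ∀ p ∈ u, |p.1| ≤ m) (j : ℕ) : IsHalfPlaneSAW (up (v :: u) j) := by
  induction j with
  | zero => exact hG
  | succ j ih =>
    rw [up, good_cons (up_ne_nil v u j)]
    refine ⟨ih, ?_, ?_, ?_⟩
    · intro h
      simp only [List.headD_cons] at h
      rcases mem_up h with h1 | ⟨-, -, h3⟩
      · have := hu _ h1
        simp only at this
        omega
      · simp only at h3
        omega
    · rw [up_head]
      simp only [List.headD_cons, sub_self, abs_zero, zero_add]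
      rw [show v.2 + ((j : ℤ) + 1) - (v.2 + j) = 1 by ring]
      rfl
    · have := hG.2.2.2 v List.mem_cons_self
      simp only [List.headD_cons]
      omega

lemma up_filter {m : ℕ} {v : ℤ × ℤ} {u : List (ℤ × ℤ)} (hv : |v.1| = m + 1)
    (hu : ∀ p ∈ u, |p.1| ≤ m) (j : ℕ) :
    (up (v :: u) j).filter (fun p : ℤ × ℤ => decide (|p.1| ≤ (m : ℤ))) = u := by
  induction j with
  | zero =>
    rw [up, List.filter_cons_of_neg (by simp [hv])]
    rw [List.filter_eq_self]
    intro p hp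
    simpa using hu p hp
  | succ j ih =>
    rw [up, List.filter_cons_of_neg (by simp [hv]), ih]

/-- side exits of the rectangle -/
def IsSide (m k : ℕ) (w : List (ℤ × ℤ)) : Prop :=
  ∃ v u, w = v :: u ∧ IsHalfPlaneSAW w ∧ |v.1| = m + 1 ∧ v.2 < k ∧ ∀ p ∈ u, |p.1| ≤ m ∧ p.2 < k

/-- extension up to height `k` -/
def ext (k : ℕ) (w : List (ℤ × ℤ)) : List (ℤ × ℤ) := up w ((k : ℤ) - (w.headD (0, 0)).2).toNat

lemma ext_spec {m k : ℕ} {w : List (ℤ × ℤ)} (h : IsSide m k w) :
    IsHalfPlaneSAW (ext k w) ∧ ((ext k w).headD (0, 0)).2 = k ∧ (∀ p ∈ (ext k w).tail, p.2 < k) ∧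
      ∃ j ≤ k, (ext k w).length = w.length + j := by
  obtain ⟨v, u, rfl, hG, hv1, hv2, hu⟩ := h
  have hv0 : 0 ≤ v.2 := hG.2.2.2 v List.mem_cons_self
  unfold ext
  simp only [List.headD_cons]
  obtain ⟨j, hj⟩ : ∃ j : ℕ, (j : ℤ) = (k : ℤ) - v.2 := ⟨((k : ℤ) - v.2).toNat, by omega⟩
  have hjt : ((k : ℤ) - v.2).toNat = j := by omega
  rw [hjt]
  refine ⟨up_good hG hv1 (fun p hp => (hu p hp).1) j, ?_, ?_, ⟨j, by omega, up_length _ _⟩⟩
  · rw [up_head]; simp only; omega
  · obtain ⟨i, rfl⟩ : ∃ i, j = i + 1 := ⟨j - 1, by omega⟩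
    rw [up, List.tail_cons]
    intro p hp
    rcases mem_up hp with h1 | ⟨-, -, h3⟩
    · exact (hu p h1).2
    · push_cast at hj
      omega

lemma ext_inj {m m' k : ℕ} {w w' : List (ℤ × ℤ)} (h : IsSide m k w) (h' : IsSide m' k w')
    (e : ext k w = ext k w') : w = w' := by
  obtain ⟨v, u, rfl, hG, hv1, hv2, hu⟩ := h
  obtain ⟨v', u', rfl, hG', hv1', hv2', hu'⟩ := h'
  unfold ext at e
  simp only [List.headD_cons] at e
  set j := ((k : ℤ) - v.2).toNat with hj
  set j' := ((k : ℤ) - v'.2).toNat with hj'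
  have e1 : (v.1, v.2 + (j : ℤ)) = (v'.1, v'.2 + (j' : ℤ)) := by
    rw [← up_head v u j, ← up_head v' u' j', e]
  rw [Prod.mk.injEq] at e1
  have hm : m = m' := by
    have h1 : ((m : ℤ) + 1) = m' + 1 := by rw [← hv1, ← hv1', e1.1]
    omega
  subst hm
  have h1 := up_filter hv1 (fun p hp => (hu p hp).1) j
  have h2 := up_filter hv1' (fun p hp => (hu' p hp).1) j'
  rw [e, h2] at h1
  have h3 : (up (v :: u) j).length = (up (v' :: u') j').length := by rw [e]
  rw [up_length, up_length, h1] at h3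
  simp only [List.length_cons] at h3
  have h4 : v = v' := by
    apply Prod.ext e1.1
    omega
  rw [h4, h1]

/-- there are rectangles of given height and large width with small side conductance -/
lemma exists_width {c : ℝ} (hc : IsCritical c) {k : ℕ} (hk : 1 ≤ k) (M : ℕ) :
    ∃ m, M ≤ m ∧ ∀ F : Finset (List (ℤ × ℤ)), (∀ w ∈ F, IsSide m k w) →
      ∑ w ∈ F, c ^ (w.length - 1) ≤ 1 := by
  classical
  by_contra hcon
  push Not at hcon
  have hc0 := hc.1
  choose! F hF1 hF2 using hcon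
  set δ : ℝ := min 1 (c ^ k) with hδ
  have hδ0 : 0 < δ := lt_min one_pos (by positivity)
  obtain ⟨n, hn⟩ := exists_nat_gt (1 / δ)
  set U : Finset (List (ℤ × ℤ)) := (Finset.range n).biUnion (fun i => F (M + i)) with hU
  have hside : ∀ w ∈ U, ∃ i, IsSide (M + i) k w := by
    intro w hw
    rw [hU, Finset.mem_biUnion] at hw
    obtain ⟨i, -, hi⟩ := hw
    exact ⟨i, hF1 (M + i) (by omega) w hi⟩
  have hdisj : ∑ w ∈ U, c ^ (w.length - 1) = ∑ i ∈ Finset.range n, ∑ w ∈ F (M + i),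
      c ^ (w.length - 1) := by
    rw [hU, Finset.sum_biUnion]
    intro i _ j _ hij
    rw [Function.onFun, Finset.disjoint_left]
    intro w h1 h2
    obtain ⟨v, u, rfl, -, hv, -, -⟩ := hF1 (M + i) (by omega) w h1
    obtain ⟨v', u', e, -, hv', -, -⟩ := hF1 (M + j) (by omega) _ h2
    rw [List.cons.injEq] at e
    rw [← e.1, hv] at hv'
    apply hij
    push_cast at hv'
    omega
  have h1 : (n : ℝ) ≤ ∑ w ∈ U, c ^ (w.length - 1) := by
    rw [hdisj]
    calc (n : ℝ) = ∑ i ∈ Finset.range n, (1 : ℝ) := by simp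
      _ ≤ _ := Finset.sum_le_sum fun i _ => (hF2 (M + i) (by omega)).le
  have h2 : ∑ w ∈ U.image (ext k), c ^ (w.length - 1) ≤ 1 := by
    apply top_bound hc (k := k) (by exact_mod_cast hk)
    intro z hz
    rw [Finset.mem_image] at hz
    obtain ⟨w, hw, rfl⟩ := hz
    obtain ⟨i, hi⟩ := hside w hw
    obtain ⟨h3, h4, h5, -⟩ := ext_spec hi
    exact ⟨h3, h4, h5⟩
  rw [Finset.sum_image] at h2
  · have h3 : ∑ w ∈ U, δ * c ^ (w.length - 1) ≤ ∑ w ∈ U, c ^ ((ext k w).length - 1) := by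
      apply Finset.sum_le_sum
      intro w hw
      obtain ⟨i, hi⟩ := hside w hw
      obtain ⟨-, -, -, j, hj, hlen⟩ := ext_spec hi
      obtain ⟨v, u, rfl, -, -, -, -⟩ := hi
      rw [hlen]
      have e : (v :: u).length + j - 1 = j + ((v :: u).length - 1) := by
        simp only [List.length_cons]; omega
      rw [e, pow_add]
      apply mul_le_mul_of_nonneg_right _ (by positivity)
      rcases le_total c 1 with h | h
      · exact (min_le_right _ _).trans (pow_le_pow_of_le_one hc0.le h hj)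
      · exact (min_le_left _ _).trans (one_le_pow₀ h)
    rw [← Finset.mul_sum] at h3
    have h4 : δ * n ≤ 1 := (mul_le_mul_of_nonneg_left h1 hδ0.le).trans (h3.trans h2)
    rw [div_lt_iff₀ hδ0] at hn
    linarith [mul_comm δ (n : ℝ)]
  · intro w hw w' hw' e
    obtain ⟨i, hi⟩ := hside w hw
    obtain ⟨i', hi'⟩ := hside w' hw'
    exact ext_inj hi hi' e

/-- the conductance of a cutset with small side part -/
lemma O_bound {c : ℝ} (hc : IsCritical c) {m k : ℕ} (hk : 1 ≤ k)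
    (hm : ∀ F : Finset (List (ℤ × ℤ)), (∀ w ∈ F, IsSide m k w) →
      ∑ w ∈ F, c ^ (w.length - 1) ≤ 1) :
    ∑ w ∈ O m k, c ^ w.length ≤ 2 * c := by
  classical
  have hc0 := hc.1
  have h1 : ∑ w ∈ O m k, c ^ w.length = c * ∑ w ∈ O m k, c ^ (w.length - 1) := by
    rw [Finset.mul_sum]
    apply Finset.sum_congr rfl
    intro w hw
    obtain ⟨v, u, rfl, -⟩ := mem_O hw
    simp [pow_succ, mul_comm]
  rw [h1, mul_comm 2 c]
  apply mul_le_mul_of_nonneg_left _ hc0.le
  rw [← Finset.sum_filter_add_sum_filter_not (O m k) (fun w => (w.headD (0, 0)).2 = (k : ℤ))]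
  have h2 : ∑ w ∈ (O m k).filter (fun w => (w.headD (0, 0)).2 = (k : ℤ)),
      c ^ (w.length - 1) ≤ 1 := by
    apply top_bound hc (k := k) (by exact_mod_cast hk)
    intro w hw
    rw [Finset.mem_filter] at hw
    obtain ⟨v, u, rfl, hu, hG, -⟩ := mem_O hw.1
    exact ⟨hG, hw.2, fun p hp => ((mem_I.1 hu).2 p hp).2⟩
  have h3 : ∑ w ∈ (O m k).filter (fun w => ¬ (w.headD (0, 0)).2 = (k : ℤ)),
      c ^ (w.length - 1) ≤ 1 := by
    apply hm
    intro w hw
    rw [Finset.mem_filter] at hw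
    obtain ⟨v, u, rfl, hu, hG, h4, h5, h6, h7⟩ := mem_O hw.1
    have h8 := hw.2
    simp only [List.headD_cons] at h8
    have h9 : v.2 < k := lt_of_le_of_ne h5 h8
    have h10 : ¬ |v.1| ≤ m := fun h => h7 ⟨h, h9⟩
    exact ⟨v, u, rfl, hG, by omega, h9, (mem_I.1 hu).2⟩
  linarith

/-- the energy in a cutset -/
lemma O_energy {c : ℝ} (hc : IsCritical c) {θ : List (ℤ × ℤ) → ℝ} (h : IsFiniteEnergyFlow c θ)
    {m k : ℕ} (hk : 1 ≤ k)
    (hm : ∀ F : Finset (List (ℤ × ℤ)), (∀ w ∈ F, IsSide m k w) →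
      ∑ w ∈ F, c ^ (w.length - 1) ≤ 1) :
    1 / (2 * c) ≤ ∑ w ∈ O m k, θ w ^ 2 / c ^ w.length := by
  have hc0 := hc.1
  have h1 := sum_O h (m := m) hk
  have h2 := O_bound hc hk hm
  have hne : (O m k).Nonempty := by
    rw [Finset.nonempty_iff_ne_empty]
    intro e
    rw [e] at h1
    simp at h1
  have h3 : 0 < ∑ w ∈ O m k, c ^ w.length := Finset.sum_pos (fun w _ => by positivity) hne
  have h4 := Finset.sq_sum_div_le_sum_sq_div (O m k) θ (g := fun w => c ^ w.length)
    (fun w _ => by positivity)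
  rw [h1] at h4
  refine le_trans ?_ h4
  rw [one_pow]
  exact one_div_le_one_div_of_le h3 h2

/-- **Recurrence at the critical bias** on the tree of half-plane self-avoiding walks. -/
theorem recurrent_critical {c : ℝ} (hc : IsCritical c) : Recurrent c := by
  classical
  rintro ⟨θ, hθ⟩
  have hc0 := hc.1
  have hw := fun k M : ℕ => exists_width hc (k := k + 1) (by omega) M
  choose f hf1 hf2 using hw
  -- widths
  let wd : ℕ → ℕ := fun n => Nat.rec (f 0 0) (fun n a => f (n + 1) (a + 1)) n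
  have hwd0 : wd 0 = f 0 0 := rfl
  have hwds : ∀ n, wd (n + 1) = f (n + 1) (wd n + 1) := fun n => rfl
  have hwlt : ∀ n, wd n + 1 ≤ wd (n + 1) := by
    intro n
    rw [hwds]
    exact hf1 (n + 1) (wd n + 1)
  have hwmono : ∀ i j, i < j → wd i + 1 ≤ wd j := by
    intro i j hij
    induction j with
    | zero => omega
    | succ j ih =>
      rcases Nat.lt_succ_iff_lt_or_eq.1 hij with h | h
      · have := ih h
        have := hwlt j
        omega
      · subst h
        exact hwlt i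
  have hside : ∀ n, ∀ F : Finset (List (ℤ × ℤ)), (∀ w ∈ F, IsSide (wd n) (n + 1) w) →
      ∑ w ∈ F, c ^ (w.length - 1) ≤ 1 := by
    intro n
    cases n with
    | zero => exact hf2 0 0
    | succ n => exact hf2 (n + 1) (wd n + 1)
  have hen : ∀ n, 1 / (2 * c) ≤ ∑ w ∈ O (wd n) (n + 1), θ w ^ 2 / c ^ w.length :=
    fun n => O_energy hc hθ (by omega) (hside n)
  have hdisj : ∀ i j, i < j → Disjoint (O (wd i) (i + 1)) (O (wd j) (j + 1)) := by
    intro i j hij
    rw [Finset.disjoint_left]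
    intro w h1 h2
    obtain ⟨v, u, rfl, -, -, h3, h4, -, -⟩ := mem_O h1
    obtain ⟨v', u', e, -, -, -, -, -, h5⟩ := mem_O h2
    rw [List.cons.injEq] at e
    rw [← e.1] at h5
    have h6 := hwmono i j hij
    apply h5
    push_cast at h4 ⊢
    constructor <;> omega
  obtain ⟨n, hn⟩ := exists_nat_gt (2 * c * ∑' w, θ w ^ 2 / c ^ w.length)
  have h1 : ∑ w ∈ (Finset.range n).biUnion (fun i => O (wd i) (i + 1)), θ w ^ 2 / c ^ w.length ≤
      ∑' w, θ w ^ 2 / c ^ w.length := hθ.energy.sum_le_tsum _ (fun w _ => by positivity)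
  rw [Finset.sum_biUnion] at h1
  · have h2 : (n : ℝ) * (1 / (2 * c)) ≤ ∑ i ∈ Finset.range n,
        ∑ w ∈ O (wd i) (i + 1), θ w ^ 2 / c ^ w.length := by
      calc (n : ℝ) * (1 / (2 * c)) = ∑ i ∈ Finset.range n, (1 / (2 * c)) := by simp
        _ ≤ _ := Finset.sum_le_sum fun i _ => hen i
    have h3 := h2.trans h1
    rw [mul_one_div, div_le_iff₀ (by positivity)] at h3
    linarith [mul_comm (∑' w, θ w ^ 2 / c ^ w.length) (2 * c)]
  · intro i _ j _ hij
    rcases lt_or_gt_of_ne hij with h | h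
    · exact hdisj i j h
    · exact (hdisj j i h).symm

end Pool.Agent.H643R3.Tree
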