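import Mathlib

/-!
# The tree of half-plane self-avoiding walks: definitions and basic facts
-/

set_option autoImplicit false

namespace Pool.Agent.H643R3.Tree

/-- the four unit steps of `ℤ²` -/
def dirs : List (ℤ × ℤ) := [(1, 0), (-1, 0), (0, 1), (0, -1)]

/-- `w` is a self-avoiding walk in the upper half-plane started at the origin, written backwards:
the head of the list is the end point of the walk, its last entry is the origin. -/
def IsHalfPlaneSAW (w : List (ℤ × ℤ)) : Prop :=
  w.Nodup ∧ w.getLast? = some (0, 0) ∧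
    (∀ i : ℕ, i + 1 < w.length →
      |(w.getD i (0, 0)).1 - (w.getD (i + 1) (0, 0)).1|
        + |(w.getD i (0, 0)).2 - (w.getD (i + 1) (0, 0)).2| = 1) ∧
    ∀ p ∈ w, (0 : ℤ) ≤ p.2

/-- `θ` is a unit flow from the root to infinity on the tree of half-plane self-avoiding walks
(`θ w` is the flow through the edge from the parent of `w` to `w`) with finite energy for the
conductances `b ^ |w|`. -/
structure IsFiniteEnergyFlow (b : ℝ) (θ : List (ℤ × ℤ) → ℝ) : Prop where
  /-- the flow lives on the tree -/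
  supp : ∀ w, ¬ IsHalfPlaneSAW w → θ w = 0
  /-- unit strength -/
  root : θ [(0, 0)] = 1
  /-- conservation: what enters `w` leaves through its children -/
  cons : ∀ w, IsHalfPlaneSAW w → θ w = (dirs.map fun d => θ ((w.headD (0, 0) + d) :: w)).sum
  /-- finite energy -/
  energy : Summable fun w : List (ℤ × ℤ) => θ w ^ 2 / b ^ w.length

/-- The biased walk `RW_b` on the tree `T_ℍ` of half-plane self-avoiding walks is recurrent
(flow criterion: there is no unit flow of finite energy). -/
def Recurrent (b : ℝ) : Prop := ¬ ∃ θ, IsFiniteEnergyFlow b θ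

/-- `c` is the critical bias: it separates recurrence from transience. -/
def IsCritical (c : ℝ) : Prop :=
  0 < c ∧ (∀ b, 0 < b → b < c → Recurrent b) ∧ ∀ b, c < b → ¬ Recurrent b


lemma not_good_nil : ¬ IsHalfPlaneSAW [] := by
  rintro ⟨-, h, -⟩
  simp at h

lemma good_root : IsHalfPlaneSAW [(0, 0)] := by
  refine ⟨by simp, by simp, ?_, by simp⟩
  intro i hi
  simp at hi

lemma good_single {v : ℤ × ℤ} (h : IsHalfPlaneSAW [v]) : v = (0, 0) := by
  obtain ⟨-, h, -⟩ := h
  simpa using h

lemma good_cons {v : ℤ × ℤ} {u : List (ℤ × ℤ)} (hu : u ≠ []) :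
    IsHalfPlaneSAW (v :: u) ↔ IsHalfPlaneSAW u ∧ v ∉ u ∧ |v.1 - (u.headD (0, 0)).1| + |v.2 - (u.headD (0, 0)).2| = 1 ∧
      0 ≤ v.2 := by
  obtain ⟨a, t, rfl⟩ := List.exists_cons_of_ne_nil hu
  unfold IsHalfPlaneSAW
  rw [List.nodup_cons, List.getLast?_cons_cons]
  constructor
  · rintro ⟨⟨h1, h2⟩, h3, h4, h5⟩
    refine ⟨⟨h2, h3, ?_, fun p hp => h5 p (List.mem_cons_of_mem _ hp)⟩, h1, ?_,
      h5 v List.mem_cons_self⟩
    · intro i hi
      have := h4 (i + 1) (by simpa using hi)
      simpa using this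
    · have := h4 0 (by simp)
      simpa using this
  · rintro ⟨⟨h2, h3, h4, h5⟩, h1, h6, h7⟩
    refine ⟨⟨h1, h2⟩, h3, ?_, ?_⟩
    · intro i hi
      rcases i with _ | i
      · simpa using h6
      · have := h4 i (by simpa using hi)
        simpa using this
    · intro p hp
      rcases List.mem_cons.1 hp with rfl | hp
      · exact h7
      · exact h5 p hp

lemma good_ne_nil {w : List (ℤ × ℤ)} (h : IsHalfPlaneSAW w) : w ≠ [] := fun e => not_good_nil (e ▸ h)

lemma good_tail {v : ℤ × ℤ} {u : List (ℤ × ℤ)} (hu : u ≠ []) (h : IsHalfPlaneSAW (v :: u)) : IsHalfPlaneSAW u :=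
  ((good_cons hu).1 h).1

lemma step_mem_dirs {v a : ℤ × ℤ} (h : |v.1 - a.1| + |v.2 - a.2| = 1) : v - a ∈ dirs := by
  obtain ⟨v1, v2⟩ := v
  obtain ⟨a1, a2⟩ := a
  simp only [Prod.mk_sub_mk, dirs, List.mem_cons, Prod.mk.injEq, List.not_mem_nil, or_false] at h ⊢
  rcases abs_cases (v1 - a1) with h1 | h1 <;> rcases abs_cases (v2 - a2) with h2 | h2 <;> omega

lemma dirs_step {d : ℤ × ℤ} (h : d ∈ dirs) : |d.1| + |d.2| = 1 := by
  simp only [dirs, List.mem_cons, List.not_mem_nil, or_false] at h
  rcases h with rfl | rfl | rfl | rfl <;> norm_num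

/-- reversed list of steps of a (reversed) walk -/
def stp : List (ℤ × ℤ) → List (ℤ × ℤ)
  | [] => []
  | [_] => []
  | (a :: b :: t) => (a - b) :: stp (b :: t)

/-- the (reversed) walk with a given (reversed) list of steps -/
def path : List (ℤ × ℤ) → List (ℤ × ℤ)
  | [] => [(0, 0)]
  | (d :: l) => (d + l.sum) :: path l

lemma path_ne_nil (l : List (ℤ × ℤ)) : path l ≠ [] := by cases l <;> simp [path]

lemma path_head (l : List (ℤ × ℤ)) : (path l).headD (0, 0) = l.sum := by
  cases l with
  | nil => rfl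
  | cons d l => simp [path]

lemma path_length (l : List (ℤ × ℤ)) : (path l).length = l.length + 1 := by
  induction l with
  | nil => rfl
  | cons d l ih => simp [path, ih]

lemma path_stp (w : List (ℤ × ℤ)) : IsHalfPlaneSAW w → path (stp w) = w := by
  induction w with
  | nil => intro h; exact absurd h not_good_nil
  | cons a w ih =>
    intro h
    rcases w with _ | ⟨b, t⟩
    · have := good_single h
      subst this
      rfl
    · have h1 := ih (good_tail (by simp) h)
      have h2 : (stp (b :: t)).sum = b := by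
        rw [← path_head, h1]; rfl
      rw [stp, path, h1, h2]
      simp

lemma stp_length {w : List (ℤ × ℤ)} (h : IsHalfPlaneSAW w) : w.length = (stp w).length + 1 := by
  conv_lhs => rw [← path_stp w h]
  exact path_length _

lemma stp_inj {w w' : List (ℤ × ℤ)} (h : IsHalfPlaneSAW w) (h' : IsHalfPlaneSAW w') (e : stp w = stp w') : w = w' := by
  rw [← path_stp w h, ← path_stp w' h', e]

lemma stp_cons {v : ℤ × ℤ} {u : List (ℤ × ℤ)} (hu : u ≠ []) :
    stp (v :: u) = (v - u.headD (0, 0)) :: stp u := by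
  obtain ⟨a, t, rfl⟩ := List.exists_cons_of_ne_nil hu
  rfl

lemma path_append (r s : List (ℤ × ℤ)) :
    path (r ++ s) = (path r).dropLast.map (· + s.sum) ++ path s := by
  induction r with
  | nil => simp [path]
  | cons d r ih =>
    rw [List.cons_append, path, ih, path, List.dropLast_cons_of_ne_nil (path_ne_nil r)]
    simp [add_assoc]

lemma good_path_cons (d : ℤ × ℤ) (l : List (ℤ × ℤ)) : IsHalfPlaneSAW (path (d :: l)) ↔
    IsHalfPlaneSAW (path l) ∧ d + l.sum ∉ path l ∧ |d.1| + |d.2| = 1 ∧ 0 ≤ (d + l.sum).2 := by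
  rw [path, good_cons (path_ne_nil l), path_head]
  simp

/-- initial segments of good walks are good -/
lemma good_path_of_suffix {v l : List (ℤ × ℤ)} (h : v <:+ l) (hl : IsHalfPlaneSAW (path l)) : IsHalfPlaneSAW (path v) := by
  obtain ⟨r, rfl⟩ := h
  induction r with
  | nil => simpa using hl
  | cons d r ih =>
    rw [List.cons_append, good_path_cons] at hl
    exact ih hl.1

end Pool.Agent.H643R3.Tree
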