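import Pool.Agent.H643R3.TreeDefs

/-!
# A finite energy flow built from blocks
-/

set_option autoImplicit false

namespace Pool.Agent.H643R3.Tree


/-- the steps as a finset -/
def dirsF : Finset (ℤ × ℤ) := {(1, 0), (-1, 0), (0, 1), (0, -1)}

lemma sum_dirs (f : ℤ × ℤ → ℝ) : (dirs.map f).sum = ∑ d ∈ dirsF, f d := by
  unfold dirsF dirs
  rw [Finset.sum_insert (by decide), Finset.sum_insert (by decide), Finset.sum_insert (by decide),
    Finset.sum_singleton]
  simp

lemma mem_dirsF (d : ℤ × ℤ) : d ∈ dirsF ↔ d ∈ dirs := by simp [dirsF, dirs]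

/-- total weight of the blocks -/
noncomputable def tot (b : ℝ) (B : Finset (List (ℤ × ℤ))) : ℝ := ∑ β ∈ B, b ^ β.length

/-- normalised weight of the blocks with initial segment `v` -/
noncomputable def N (b : ℝ) (B : Finset (List (ℤ × ℤ))) (v : List (ℤ × ℤ)) : ℝ :=
  (∑ β ∈ B.filter (v <:+ ·), b ^ β.length) / tot b B

/-- the current unfinished block -/
def st (B : Finset (List (ℤ × ℤ))) : List (ℤ × ℤ) → List (ℤ × ℤ)
  | [] => []
  | (d :: l) => if d :: st B l ∈ B then [] else d :: st B l

/-- the number of finished blocks -/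
def cnt (B : Finset (List (ℤ × ℤ))) : List (ℤ × ℤ) → ℕ
  | [] => 0
  | (d :: l) => if d :: st B l ∈ B then cnt B l + 1 else cnt B l

/-- the flow on step lists -/
noncomputable def Th (b : ℝ) (B : Finset (List (ℤ × ℤ))) : List (ℤ × ℤ) → ℝ
  | [] => 1
  | (d :: l) => Th b B l * N b B (d :: st B l) / N b B (st B l)

/-- admissible blocks: half-plane walks first reaching height `k` at their last step -/
def Adm (k : ℤ) (B : Finset (List (ℤ × ℤ))) : Prop :=
  ∀ β ∈ B, IsHalfPlaneSAW (path β) ∧ β.sum.2 = k ∧ ∀ p ∈ (path β).tail, p.2 < k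

lemma zero_mem_path (l : List (ℤ × ℤ)) : ((0, 0) : ℤ × ℤ) ∈ path l := by
  induction l with
  | nil => simp [path]
  | cons d l ih => simp [path, ih]

lemma sum_mem_path (l : List (ℤ × ℤ)) : l.sum ∈ path l := by
  cases l with
  | nil => exact List.mem_singleton.2 rfl
  | cons d l => simp [path]

lemma mem_path_cases {l : List (ℤ × ℤ)} {p : ℤ × ℤ} (h : p ∈ path l) :
    p = l.sum ∨ p ∈ (path l).tail := by
  cases l with
  | nil => left; exact List.mem_singleton.1 h
  | cons d l =>
    rw [path] at h
    rcases List.mem_cons.1 h with h | h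
    · left; simpa using h
    · right; simpa [path] using h

lemma steps_mem (l : List (ℤ × ℤ)) (h : IsHalfPlaneSAW (path l)) : ∀ d ∈ l, d ∈ dirs := by
  induction l with
  | nil => simp
  | cons a l ih =>
    rw [good_path_cons] at h
    intro d hd
    rcases List.mem_cons.1 hd with rfl | hd
    · have := step_mem_dirs (v := d) (a := (0, 0)) (by simpa using h.2.2.1)
      have e : d - ((0, 0) : ℤ × ℤ) = d := sub_zero d
      rwa [e] at this
    · exact ih h.1 d hd

section
variable {k : ℤ} {B : Finset (List (ℤ × ℤ))} {b : ℝ}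

lemma adm_ne_nil (hk : 1 ≤ k) (hB : Adm k B) {β : List (ℤ × ℤ)} (h : β ∈ B) : β ≠ [] := by
  rintro rfl
  have := (hB _ h).2.1
  simp at this
  omega

lemma adm_prefix_free (hB : Adm k B) {β β' : List (ℤ × ℤ)} (h : β ∈ B) (h' : β' ∈ B)
    (hs : β <:+ β') : β = β' := by
  obtain ⟨r, rfl⟩ := hs
  rcases r with _ | ⟨d, r⟩
  · rfl
  · exfalso
    have h1 := (hB _ h').2.2 β.sum (by
      rw [List.cons_append, path, List.tail_cons, path_append]
      exact List.mem_append_right _ (sum_mem_path β))
    have h2 := (hB _ h).2.1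
    omega

lemma tot_pos (hb : 0 < b) (hne : B.Nonempty) : 0 < tot b B :=
  Finset.sum_pos (fun β _ => by positivity) hne

lemma N_nonneg (hb : 0 < b) (v : List (ℤ × ℤ)) : 0 ≤ N b B v :=
  div_nonneg (Finset.sum_nonneg fun β _ => by positivity)
    (Finset.sum_nonneg fun β _ => by positivity)

lemma N_nil (hb : 0 < b) (hne : B.Nonempty) : N b B [] = 1 := by
  unfold N
  rw [Finset.filter_true_of_mem (fun β _ => List.nil_suffix)]
  exact div_self (tot_pos hb hne).ne'

lemma N_ne_zero {v : List (ℤ × ℤ)} (h : N b B v ≠ 0) : ∃ β ∈ B, v <:+ β := by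
  by_contra hc
  push Not at hc
  apply h
  unfold N
  rw [Finset.filter_false_of_mem (fun β hβ => hc β hβ)]
  simp

lemma N_mem (hB : Adm k B) {v : List (ℤ × ℤ)} (h : v ∈ B) : N b B v = b ^ v.length / tot b B := by
  unfold N
  have : B.filter (v <:+ ·) = {v} := by
    ext β
    simp only [Finset.mem_filter, Finset.mem_singleton]
    constructor
    · rintro ⟨h1, h2⟩
      exact (adm_prefix_free hB h h1 h2).symm
    · rintro rfl
      exact ⟨h, List.suffix_rfl⟩
  rw [this, Finset.sum_singleton]

lemma next_step {v β : List (ℤ × ℤ)} (h : v <:+ β) (hne : v ≠ β) :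
    ∃ d0 ∈ β, ∀ d, (d :: v) <:+ β ↔ d = d0 := by
  obtain ⟨r, rfl⟩ := h
  rcases List.eq_nil_or_concat r with rfl | ⟨r', d0, rfl⟩
  · simp at hne
  · refine ⟨d0, by simp, fun d => ?_⟩
    have e : r' ++ [d0] ++ v = r' ++ (d0 :: v) := by simp
    simp only [List.concat_eq_append]
    rw [e]
    constructor
    · intro h1
      have h2 : (d0 :: v) <:+ r' ++ (d0 :: v) := List.suffix_append _ _
      have h3 := List.suffix_of_suffix_length_le h1 h2 (by simp)
      have h4 := h3.eq_of_length (by simp)
      exact (List.cons.inj h4).1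
    · rintro rfl
      exact List.suffix_append _ _

lemma N_split (hB : Adm k B) {v : List (ℤ × ℤ)} (hv : v ∉ B) :
    ∑ d ∈ dirsF, N b B (d :: v) = N b B v := by
  unfold N
  rw [← Finset.sum_div]
  congr 1
  simp only [Finset.sum_filter]
  rw [Finset.sum_comm]
  apply Finset.sum_congr rfl
  intro β hβ
  by_cases h : v <:+ β
  · have hne : v ≠ β := fun e => hv (e ▸ hβ)
    obtain ⟨d0, hd0, hd⟩ := next_step h hne
    rw [if_pos h]
    simp only [hd]
    rw [Finset.sum_ite_eq' dirsF d0, if_pos ((mem_dirsF d0).2 (steps_mem β (hB β hβ).1 d0 hd0))]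
  · rw [if_neg h]
    apply Finset.sum_eq_zero
    intro d _
    rw [if_neg]
    intro h1
    exact h ((List.suffix_cons d v).trans h1)

lemma st_notMem (hk : 1 ≤ k) (hB : Adm k B) (l : List (ℤ × ℤ)) : st B l ∉ B := by
  cases l with
  | nil => exact fun h => adm_ne_nil hk hB h rfl
  | cons d l =>
    rw [st]
    split_ifs with h
    · exact fun h => adm_ne_nil hk hB h rfl
    · exact h

lemma Th_nonneg (hb : 0 < b) (l : List (ℤ × ℤ)) : 0 ≤ Th b B l := by
  induction l with
  | nil => simp [Th]
  | cons d l ih => rw [Th]; exact div_nonneg (mul_nonneg ih (N_nonneg hb _)) (N_nonneg hb _)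

lemma Th_ne (hb : 0 < b) (hne : B.Nonempty) {l : List (ℤ × ℤ)} (h : Th b B l ≠ 0) :
    N b B (st B l) ≠ 0 := by
  cases l with
  | nil => rw [st, N_nil hb hne]; exact one_ne_zero
  | cons d l =>
    rw [Th] at h
    rw [st]
    split_ifs with h1
    · rw [N_nil hb hne]; exact one_ne_zero
    · intro h2
      rw [h2] at h
      simp at h

lemma Th_flow (hk : 1 ≤ k) (hB : Adm k B) (hb : 0 < b) (hne : B.Nonempty) (l : List (ℤ × ℤ)) :
    ∑ d ∈ dirsF, Th b B (d :: l) = Th b B l := by
  simp only [Th]
  rw [← Finset.sum_div, ← Finset.mul_sum, N_split hB (st_notMem hk hB l)]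
  by_cases h : Th b B l = 0
  · simp [h]
  · rw [mul_div_assoc, div_self (Th_ne hb hne h), mul_one]

/-- gluing a partial block to a finished part -/
lemma glue {v r : List (ℤ × ℤ)} (hv : IsHalfPlaneSAW (path v)) (hr : IsHalfPlaneSAW (path r))
    (ht : ∀ p ∈ (path r).tail, p.2 < r.sum.2) : IsHalfPlaneSAW (path (v ++ r)) := by
  induction v with
  | nil => simpa using hr
  | cons d v ih =>
    have hv' := (good_path_cons d v).1 hv
    have h1 := ih hv'.1
    rw [List.cons_append, good_path_cons]
    have h0 : 0 ≤ r.sum.2 := hr.2.2.2 _ (sum_mem_path r)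
    refine ⟨h1, ?_, hv'.2.2.1, ?_⟩
    · rw [path_append, List.mem_append]
      rintro (h2 | h2)
      · rw [List.mem_map] at h2
        obtain ⟨y, hy, hy2⟩ := h2
        apply hv'.2.1
        have : y = d + v.sum := by
          rw [List.sum_append] at hy2
          have e : y + r.sum = d + v.sum + r.sum := by rw [hy2]; abel
          exact add_right_cancel e
        rw [← this]
        exact List.mem_of_mem_dropLast hy
      · rw [List.sum_append] at h2
        rcases mem_path_cases h2 with h3 | h3
        · apply hv'.2.1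
          have : d + v.sum = 0 := by
            have e : (d + v.sum) + r.sum = 0 + r.sum := by rw [zero_add, add_assoc]; exact h3
            exact add_right_cancel e
          rw [this]
          exact zero_mem_path v
        · have h4 := ht _ h3
          have h5 : (d + (v.sum + r.sum)).2 = (d + v.sum).2 + r.sum.2 := by
            rw [← add_assoc]; rfl
          rw [h5] at h4
          have := hv'.2.2.2
          omega
    · rw [List.sum_append]
      have h5 : (d + (v.sum + r.sum)).2 = (d + v.sum).2 + r.sum.2 := by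
        rw [← add_assoc]; rfl
      rw [h5]
      have := hv'.2.2.2
      omega

lemma glue_tail (hk : 1 ≤ k) (hB : Adm k B) {v r : List (ℤ × ℤ)} (hv : v ∈ B)
    (ht : ∀ p ∈ (path r).tail, p.2 < r.sum.2) :
    ∀ p ∈ (path (v ++ r)).tail, p.2 < (v ++ r).sum.2 := by
  rcases v with _ | ⟨d, v⟩
  · exact absurd rfl (adm_ne_nil hk hB hv)
  intro p hp
  have h1 : ((d :: v) ++ r).sum.2 = k + r.sum.2 := by
    rw [List.sum_append, Prod.snd_add, (hB _ hv).2.1]
  rw [h1]
  rw [List.cons_append, path, List.tail_cons, path_append, List.mem_append, List.mem_map] at hp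
  rcases hp with ⟨y, hy, rfl⟩ | hp
  · have h2 := (hB _ hv).2.2 y (by
      rw [path, List.tail_cons]
      exact List.mem_of_mem_dropLast hy)
    rw [Prod.snd_add]
    omega
  · rcases mem_path_cases hp with rfl | h3
    · omega
    · have := ht _ h3
      omega

lemma inv (hk : 1 ≤ k) (hB : Adm k B) (l : List (ℤ × ℤ)) :
    Th b B l ≠ 0 → ∃ r, l = st B l ++ r ∧ IsHalfPlaneSAW (path r) ∧ ∀ p ∈ (path r).tail, p.2 < r.sum.2 := by
  induction l with
  | nil => intro _; exact ⟨[], by simp [st], by simpa [path] using good_root, by simp [path]⟩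
  | cons d l ih =>
    intro h
    rw [Th] at h
    have h1 : Th b B l ≠ 0 := fun e => by rw [e] at h; simp at h
    have h2 : N b B (d :: st B l) ≠ 0 := fun e => by rw [e] at h; simp at h
    obtain ⟨r, hr1, hr2, hr3⟩ := ih h1
    rw [st]
    split_ifs with hm
    · refine ⟨(d :: st B l) ++ r, ?_, ?_, ?_⟩
      · rw [List.nil_append, List.cons_append, ← hr1]
      · exact glue (hB _ hm).1 hr2 hr3
      · exact glue_tail hk hB hm hr3
    · refine ⟨r, ?_, hr2, hr3⟩
      rw [List.cons_append, ← hr1]

lemma Th_good (hk : 1 ≤ k) (hB : Adm k B) (hb : 0 < b) (hne : B.Nonempty) {l : List (ℤ × ℤ)}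
    (h : Th b B l ≠ 0) : IsHalfPlaneSAW (path l) := by
  obtain ⟨r, hr1, hr2, hr3⟩ := inv hk hB l h
  obtain ⟨β, hβ, hs⟩ := N_ne_zero (Th_ne hb hne h)
  rw [hr1]
  exact glue (good_path_of_suffix hs (hB β hβ).1) hr2 hr3

/-- decay of the flow in the number of finished blocks -/
lemma Th_decay (hB : Adm k B) (hb : 0 < b) (hne : B.Nonempty) (l : List (ℤ × ℤ)) :
    Th b B l * b ^ (st B l).length * tot b B ^ cnt B l ≤ b ^ l.length * N b B (st B l) := by
  have hs := tot_pos hb hne
  induction l with
  | nil => simp [Th, st, cnt, N_nil hb hne]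
  | cons d l ih =>
    have hN0 := N_nonneg (B := B) hb (st B l)
    have hNd := N_nonneg (B := B) hb (d :: st B l)
    rcases eq_or_lt_of_le hN0 with h0 | h0
    · rw [Th, ← h0]
      simp only [div_zero, zero_mul]
      exact mul_nonneg (by positivity) (N_nonneg hb _)
    rw [Th, st, cnt]
    split_ifs with hm
    · rw [N_mem hB hm, N_nil hb hne]
      have e : Th b B l * (b ^ (d :: st B l).length / tot b B) / N b B (st B l) *
          b ^ ([] : List (ℤ × ℤ)).length * tot b B ^ (cnt B l + 1) =
          (Th b B l * b ^ (st B l).length * tot b B ^ cnt B l) * b / N b B (st B l) := by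
        simp only [List.length_cons, List.length_nil, pow_zero, mul_one, pow_succ]
        field_simp
      rw [e, List.length_cons, pow_succ, mul_one, div_le_iff₀ h0]
      calc _ ≤ (b ^ l.length * N b B (st B l)) * b := mul_le_mul_of_nonneg_right ih hb.le
        _ = _ := by ring
    · have e : Th b B l * N b B (d :: st B l) / N b B (st B l) *
          b ^ (d :: st B l).length * tot b B ^ cnt B l =
          (Th b B l * b ^ (st B l).length * tot b B ^ cnt B l) * (b * N b B (d :: st B l)) /
            N b B (st B l) := by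
        simp only [List.length_cons, pow_succ]
        field_simp
      rw [e, List.length_cons, pow_succ, div_le_iff₀ h0]
      calc _ ≤ (b ^ l.length * N b B (st B l)) * (b * N b B (d :: st B l)) :=
            mul_le_mul_of_nonneg_right ih (mul_nonneg hb.le hNd)
        _ = _ := by ring

lemma N_le_one (hb : 0 < b) (hne : B.Nonempty) (v : List (ℤ × ℤ)) : N b B v ≤ 1 := by
  unfold N
  rw [div_le_one (tot_pos hb hne)]
  exact Finset.sum_le_sum_of_subset_of_nonneg (Finset.filter_subset _ _) (fun β _ _ => by positivity)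

lemma st_suffix_len (hb : 0 < b) (hne : B.Nonempty) {M : ℕ} (hM : ∀ β ∈ B, β.length ≤ M)
    {l : List (ℤ × ℤ)} (h : Th b B l ≠ 0) : (st B l).length ≤ M := by
  obtain ⟨β, hβ, hs⟩ := N_ne_zero (Th_ne hb hne h)
  exact hs.length_le.trans (hM β hβ)

lemma len_le {M : ℕ} (hM : ∀ β ∈ B, β.length ≤ M)
    (l : List (ℤ × ℤ)) : Th b B l ≠ 0 → l.length ≤ M * cnt B l + (st B l).length := by
  induction l with
  | nil => simp
  | cons d l ih =>
    intro h
    rw [Th] at h
    have h1 : Th b B l ≠ 0 := fun e => by rw [e] at h; simp at h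
    have h2 := ih h1
    rw [st, cnt]
    split_ifs with hm
    · have h3 := hM _ hm
      simp only [List.length_cons, List.length_nil, mul_add, mul_one] at h3 ⊢
      omega
    · simp only [List.length_cons]
      omega

end

end Pool.Agent.H643R3.Tree
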