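import Pool.Agent.H643R3.TreeFlow

/-!
# Transience when the blocks have total weight larger than one
-/

set_option autoImplicit false

open Filter Topology

namespace Pool.Agent.H643R3.Tree


/-- step lists of length `n` -/
def lv : ℕ → Finset (List (ℤ × ℤ))
  | 0 => {[]}
  | (n + 1) => (dirsF ×ˢ lv n).image (fun x => x.1 :: x.2)

lemma mem_lv (l : List (ℤ × ℤ)) (h : ∀ d ∈ l, d ∈ dirs) : l ∈ lv l.length := by
  induction l with
  | nil => simp [lv]
  | cons d l ih =>
    rw [List.length_cons, lv, Finset.mem_image]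
    refine ⟨(d, l), ?_, rfl⟩
    rw [Finset.mem_product]
    exact ⟨(mem_dirsF d).2 (h d List.mem_cons_self), ih fun e he => h e (List.mem_cons_of_mem _ he)⟩

lemma lv_length (n : ℕ) : ∀ l ∈ lv n, l.length = n := by
  induction n with
  | zero => intro l hl; simp [lv] at hl; simp [hl]
  | succ n ih =>
    intro l hl
    rw [lv, Finset.mem_image] at hl
    obtain ⟨x, hx, rfl⟩ := hl
    rw [Finset.mem_product] at hx
    simp [ih _ hx.2]

section
variable {k : ℤ} {B : Finset (List (ℤ × ℤ))} {b : ℝ}

lemma sum_lv (hk : 1 ≤ k) (hB : Adm k B) (hb : 0 < b) (hne : B.Nonempty) (n : ℕ) :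
    ∑ l ∈ lv n, Th b B l = 1 := by
  induction n with
  | zero => simp [lv, Th]
  | succ n ih =>
    rw [lv, Finset.sum_image, Finset.sum_product_right]
    · rw [← ih]
      apply Finset.sum_congr rfl
      intro l _
      exact Th_flow hk hB hb hne l
    · rintro ⟨d, l⟩ _ ⟨d', l'⟩ _ h
      simpa using h

lemma Th_bound (hk : 1 ≤ k) (hB : Adm k B) (hb : 0 < b) (hs : 1 < tot b B) :
    ∃ C ρ : ℝ, 0 ≤ C ∧ 0 ≤ ρ ∧ ρ < 1 ∧ ∀ l, Th b B l ≤ C * (b ^ l.length * ρ ^ l.length) := by
  have hne : B.Nonempty := by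
    rw [Finset.nonempty_iff_ne_empty]
    rintro rfl
    simp [tot] at hs
    linarith
  set s := tot b B with hsdef
  obtain ⟨M, hM⟩ : ∃ M : ℕ, ∀ β ∈ B, β.length ≤ M :=
    ⟨B.sup List.length, fun β hβ => Finset.le_sup (f := List.length) hβ⟩
  have hM1 : M ≠ 0 := by
    obtain ⟨β, hβ⟩ := hne
    have h1 := hM β hβ
    have h2 := adm_ne_nil hk hB hβ
    have h3 := List.length_pos_iff.2 h2
    omega
  have hs0 : 0 < s := by linarith
  set ρ : ℝ := (1 / s) ^ ((M : ℝ)⁻¹) with hρ
  have hρM : ρ ^ M = 1 / s := Real.rpow_inv_natCast_pow (by positivity) hM1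
  have hρ0 : 0 < ρ := Real.rpow_pos_of_pos (by positivity) _
  have hρ1 : ρ < 1 := Real.rpow_lt_one (by positivity) (by rw [div_lt_one hs0]; exact hs)
    (by positivity)
  set C1 : ℝ := max 1 ((1 / b) ^ M) with hC1
  have hC1' : 1 ≤ C1 := le_max_left _ _
  refine ⟨C1 * s, ρ, by positivity, hρ0.le, hρ1, fun l => ?_⟩
  by_cases h : Th b B l = 0
  · rw [h]; positivity
  have d1 := Th_decay hB hb hne l
  have d2 := N_le_one hb hne (st B l)
  have d3 := st_suffix_len hb hne hM h
  have d4 := len_le hM l h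
  have d5 : Th b B l * b ^ (st B l).length * s ^ cnt B l ≤ b ^ l.length :=
    d1.trans (mul_le_of_le_one_right (by positivity) d2)
  -- lower bound for the power of ρ
  have d6 : (1 / s) ^ cnt B l * (1 / s) ≤ ρ ^ l.length := by
    have : (1 / s) ^ cnt B l * (1 / s) = ρ ^ (M * cnt B l + M) := by
      rw [pow_add, pow_mul, hρM]
    rw [this]
    exact pow_le_pow_of_le_one hρ0.le hρ1.le (by omega)
  have d7 : (1 / b) ^ (st B l).length ≤ C1 := by
    rcases le_total (1 / b) 1 with h1 | h1
    · exact (pow_le_one₀ (by positivity) h1).trans hC1'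
    · exact (pow_le_pow_right₀ h1 d3).trans (le_max_right _ _)
  have hT := Th_nonneg (B := B) hb l
  have e1 : Th b B l = (Th b B l * b ^ (st B l).length * s ^ cnt B l) *
      ((1 / b) ^ (st B l).length) * ((1 / s) ^ cnt B l) := by
    rw [one_div, one_div, inv_pow, inv_pow]
    field_simp
  rw [e1]
  calc _ ≤ b ^ l.length * C1 * ((1 / s) ^ cnt B l) := by
        apply mul_le_mul_of_nonneg_right _ (by positivity)
        exact mul_le_mul d5 d7 (by positivity) (by positivity)
    _ = (C1 * s) * (b ^ l.length * ((1 / s) ^ cnt B l * (1 / s))) := by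
        field_simp
    _ ≤ (C1 * s) * (b ^ l.length * ρ ^ l.length) := by
        apply mul_le_mul_of_nonneg_left _ (by positivity)
        exact mul_le_mul_of_nonneg_left d6 (by positivity)

lemma energy_bound (hk : 1 ≤ k) (hB : Adm k B) (hb : 0 < b) (hs : 1 < tot b B) :
    ∃ C : ℝ, ∀ S : Finset (List (ℤ × ℤ)), ∑ l ∈ S, Th b B l ^ 2 / b ^ (l.length + 1) ≤ C := by
  have hne : B.Nonempty := by
    rw [Finset.nonempty_iff_ne_empty]
    rintro rfl
    simp [tot] at hs
    linarith
  obtain ⟨C, ρ, hC, hρ0, hρ1, hTh⟩ := Th_bound hk hB hb hs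
  set g : List (ℤ × ℤ) → ℝ := fun l => Th b B l ^ 2 / b ^ (l.length + 1) with hg
  have hg0 : ∀ l, 0 ≤ g l := fun l => by positivity
  have hgb : ∀ l, g l ≤ (C / b) * ρ ^ l.length * Th b B l := by
    intro l
    have h1 := hTh l
    have h2 := Th_nonneg (B := B) hb l
    rw [hg]
    simp only
    rw [div_le_iff₀ (by positivity)]
    have e : C / b * ρ ^ l.length * Th b B l * b ^ (l.length + 1) =
        (C * (b ^ l.length * ρ ^ l.length)) * Th b B l := by
      rw [pow_succ]; field_simp
    rw [e, sq]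
    exact mul_le_mul_of_nonneg_right h1 h2
  have hlv : ∀ n, ∑ l ∈ lv n, g l ≤ (C / b) * ρ ^ n := by
    intro n
    calc _ ≤ ∑ l ∈ lv n, (C / b) * ρ ^ n * Th b B l := by
          apply Finset.sum_le_sum
          intro l hl
          have := hgb l
          rwa [lv_length n l hl] at this
      _ = _ := by rw [← Finset.mul_sum, sum_lv hk hB hb hne, mul_one]
  refine ⟨(C / b) * (1 - ρ)⁻¹, fun S => ?_⟩
  have h1 : ∑ l ∈ S, g l = ∑ n ∈ Finset.range (S.sup List.length + 1),
      ∑ l ∈ S.filter (fun l => l.length = n), g l := by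
    rw [Finset.sum_fiberwise_of_maps_to]
    intro l hl
    rw [Finset.mem_range]
    have := Finset.le_sup (f := List.length) hl
    omega
  rw [h1]
  calc _ ≤ ∑ n ∈ Finset.range (S.sup List.length + 1), (C / b) * ρ ^ n := by
        apply Finset.sum_le_sum
        intro n _
        refine le_trans ?_ (hlv n)
        rw [← Finset.sum_filter_ne_zero]
        apply Finset.sum_le_sum_of_subset_of_nonneg
        · intro l hl
          rw [Finset.mem_filter, Finset.mem_filter] at hl
          have h2 : Th b B l ≠ 0 := by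
            intro e
            apply hl.2
            simp [hg, e]
          have h3 := mem_lv l (steps_mem l (Th_good hk hB hb hne h2))
          rwa [hl.1.2] at h3
        · intro l _ _
          exact hg0 l
    _ = (C / b) * ∑ n ∈ Finset.range (S.sup List.length + 1), ρ ^ n := by rw [Finset.mul_sum]
    _ ≤ (C / b) * (1 - ρ)⁻¹ := by
        apply mul_le_mul_of_nonneg_left _ (by positivity)
        rw [← tsum_geometric_of_lt_one hρ0 hρ1]
        exact (summable_geometric_of_lt_one hρ0 hρ1).sum_le_tsum _ (fun n _ => by positivity)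

theorem not_recurrent (hk : 1 ≤ k) (hB : Adm k B) (hb : 0 < b) (hs : 1 < tot b B) :
    ¬ Recurrent b := by
  classical
  have hne : B.Nonempty := by
    rw [Finset.nonempty_iff_ne_empty]
    rintro rfl
    simp [tot] at hs
    linarith
  intro hR
  apply hR
  refine ⟨fun w => if IsHalfPlaneSAW w then Th b B (stp w) else 0, ?_, ?_, ?_, ?_⟩
  · intro w hw
    rw [if_neg hw]
  · rw [if_pos good_root]
    simp [stp, Th]
  · intro w hw
    rw [if_pos hw, sum_dirs, ← Th_flow hk hB hb hne]
    apply Finset.sum_congr rfl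
    intro d _
    have hwn := good_ne_nil hw
    have e1 : stp ((w.headD (0, 0) + d) :: w) = d :: stp w := by
      rw [stp_cons hwn]
      simp
    rw [e1]
    split_ifs with h
    · rfl
    · by_contra hc
      apply h
      have h1 := Th_good hk hB hb hne hc
      have h2 : path (d :: stp w) = (w.headD (0, 0) + d) :: w := by
        rw [path, path_stp w hw, ← path_head (stp w), path_stp w hw, add_comm]
      rwa [h2] at h1
  · obtain ⟨C, hC⟩ := energy_bound hk hB hb hs
    apply summable_of_sum_le (c := C)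
    · intro w
      simp only [Pi.zero_apply]
      positivity
    · intro S
      have h1 : ∑ w ∈ S, (if IsHalfPlaneSAW w then Th b B (stp w) else 0) ^ 2 / b ^ w.length =
          ∑ w ∈ S.filter IsHalfPlaneSAW, Th b B (stp w) ^ 2 / b ^ ((stp w).length + 1) := by
        rw [Finset.sum_filter]
        apply Finset.sum_congr rfl
        intro w _
        split_ifs with h
        · rw [stp_length h]
        · simp
      rw [h1]
      have h2 : ∑ w ∈ S.filter IsHalfPlaneSAW, Th b B (stp w) ^ 2 / b ^ ((stp w).length + 1) =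
          ∑ l ∈ (S.filter IsHalfPlaneSAW).image stp, Th b B l ^ 2 / b ^ (l.length + 1) := by
        rw [Finset.sum_image]
        intro w hw w' hw' e
        simp only [Finset.coe_filter, Set.mem_ofPred_eq] at hw hw'
        exact stp_inj hw.2 hw'.2 e
      rw [h2]
      exact hC _

end

/-- Weight bound for the walks which first reach height `k` at their last step. -/
theorem top_bound {c : ℝ} (hc : IsCritical c) {k : ℤ} (hk : 1 ≤ k) (F : Finset (List (ℤ × ℤ)))
    (hF : ∀ w ∈ F, IsHalfPlaneSAW w ∧ (w.headD (0, 0)).2 = k ∧ ∀ p ∈ w.tail, p.2 < k) :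
    ∑ w ∈ F, c ^ (w.length - 1) ≤ 1 := by
  classical
  by_contra hcon
  push Not at hcon
  obtain ⟨hc0, hrec, -⟩ := hc
  have hcont : ContinuousAt (fun b : ℝ => ∑ w ∈ F, b ^ (w.length - 1)) c := by fun_prop
  have h1 : ∀ᶠ b in 𝓝 c, 1 < ∑ w ∈ F, b ^ (w.length - 1) := hcont.eventually_const_lt hcon
  obtain ⟨ε, hε, h2⟩ := Metric.eventually_nhds_iff.1 h1
  set b : ℝ := c - min (ε / 2) (c / 2) with hb
  have hm0 : 0 < min (ε / 2) (c / 2) := lt_min (by linarith) (by linarith)
  have hmc : min (ε / 2) (c / 2) ≤ c / 2 := min_le_right _ _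
  have hme : min (ε / 2) (c / 2) ≤ ε / 2 := min_le_left _ _
  have hb0 : 0 < b := by linarith
  have hbc : b < c := by linarith
  have h3 : 1 < ∑ w ∈ F, b ^ (w.length - 1) := by
    apply h2
    rw [Real.dist_eq, hb, abs_lt]
    constructor <;> linarith
  have hsum : ∀ w, IsHalfPlaneSAW w → (stp w).sum = w.headD (0, 0) := by
    intro w hw
    rw [← path_head, path_stp w hw]
  refine not_recurrent (k := k) (B := F.image stp) (b := b) hk ?_ hb0 ?_ (hrec b hb0 hbc)
  · intro β hβ
    rw [Finset.mem_image] at hβ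
    obtain ⟨w, hw, rfl⟩ := hβ
    obtain ⟨h4, h5, h6⟩ := hF w hw
    rw [path_stp w h4, hsum w h4]
    exact ⟨h4, h5, h6⟩
  · unfold tot
    rw [Finset.sum_image]
    · refine lt_of_lt_of_eq h3 (Finset.sum_congr rfl fun w hw => ?_)
      rw [stp_length (hF w hw).1]
      rfl
    · intro w hw w' hw' e
      exact stp_inj (hF w hw).1 (hF w' hw').1 e

end Pool.Agent.H643R3.Tree
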