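import Pool.Agent.H643R3.Pos

/-!
# Upper bounds for the density
-/

set_option autoImplicit false

open MeasureTheory ProbabilityTheory Filter Topology

namespace Pool.Agent.H643R3

section
variable {k : ℕ} {μ : Measure (ℤ → Bool)}

lemma measurable_shift : Measurable (fun (x : ℤ → Bool) (i : ℤ) => x (i + 1)) :=
  measurable_pi_lambda _ fun _ => measurable_pi_apply _

/-- correlations are invariant under the shift by one -/
lemma cyl_shift (h : IsHardCoreLaw k μ) (S : Finset ℤ) :
    μ.real (cyl (S.map (addRightEmbedding 1))) = μ.real (cyl S) := by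
  conv_rhs => rw [← h.stationary]
  unfold Measure.real
  rw [Measure.map_apply measurable_shift (measurableSet_cyl S)]
  congr 2
  ext x
  simp [cyl]

/-- factorization of the correlations -/
lemma cyl_union (h : IsHardCoreLaw k μ) (S T : Finset ℤ)
    (hST : ∀ s ∈ S, ∀ t ∈ T, (k : ℤ) < |s - t|) :
    μ.real (cyl (S ∪ T)) = μ.real (cyl S) * μ.real (cyl T) := by
  have h1 := h.dep (S : Set ℤ) (T : Set ℤ) hST
  rw [IndepFun_iff_Indep, comap_eq, comap_eq] at h1
  have h2 := (Indep_iff _ _ μ).1 h1 (cyl S) (cyl T)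
    (MeasurableSpace.measurableSet_generateFrom ⟨S, le_rfl, rfl⟩)
    (MeasurableSpace.measurableSet_generateFrom ⟨T, le_rfl, rfl⟩)
  unfold Measure.real
  rw [← cyl_inter, h2, ENNReal.toReal_mul]

lemma cyl_single (h : IsHardCoreLaw k μ) (n : ℕ) : μ.real (cyl {(n : ℤ)}) = μ.real (cyl {0}) := by
  induction n with
  | zero => simp
  | succ n ih =>
    rw [← ih, ← cyl_shift h {(n : ℤ)}]
    congr 2

lemma cyl_adj (h : IsHardCoreLaw k μ) (i : ℤ) : μ.real (cyl {i, i + 1}) = 0 := by
  rw [measureReal_def, ENNReal.toReal_eq_zero_iff]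
  left
  refine measure_mono_null ?_ (ae_iff.1 (ae_all_iff.1 h.hardcore i))
  intro x hx
  simpa [cyl] using hx

/-- the event that both `i` and `i + 1` are empty -/
def Emp (i : ℤ) : Set (ℤ → Bool) := {x | x i = false ∧ x (i + 1) = false}

lemma Emp_eq (i : ℤ) : Emp i = (cyl {i} ∪ cyl {i + 1})ᶜ := by
  ext x
  simp [Emp, cyl]

lemma Emp_real (h : IsHardCoreLaw k μ) (n : ℕ) : μ.real (Emp n) = 1 - 2 * μ.real (cyl {0}) := by
  have := h.prob
  rw [Emp_eq, probReal_compl_eq_one_sub ((measurableSet_cyl _).union (measurableSet_cyl _))]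
  have h1 := measureReal_union_add_inter (μ := μ) (s := cyl {(n : ℤ)})
    (measurableSet_cyl {((n : ℤ) + 1)})
  rw [cyl_inter] at h1
  have h2 : ({(n : ℤ)} ∪ {(n : ℤ) + 1} : Finset ℤ) = {(n : ℤ), (n : ℤ) + 1} := rfl
  rw [h2, cyl_adj h, cyl_single h n] at h1
  have h3 := cyl_single h (n + 1)
  push_cast at h3
  rw [h3] at h1
  linarith

lemma alternate (x : ℤ → Bool) (hx : ∀ i, ¬ (x i = true ∧ x (i + 1) = true)) (n : ℕ)
    (hn : ∀ i < n, x ∉ Emp (i : ℕ)) : ∀ m ≤ n, x m = (x 0 ^^ decide (m % 2 = 1)) := by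
  intro m
  induction m with
  | zero => intro _; simp
  | succ m ih =>
    intro hm
    have h1 := ih (by omega)
    have h2 := hn m (by omega)
    have h3 := hx m
    have h4 : x ((m : ℤ) + 1) = !(x m) := by
      simp only [Emp, Set.mem_ofPred_eq] at h2
      revert h2 h3
      cases x (m : ℤ) <;> cases x ((m : ℤ) + 1) <;> simp
    push_cast
    rw [h4, h1]
    rcases Nat.mod_two_eq_zero_or_one m with h5 | h5
    · have h6 : (m + 1) % 2 = 1 := by omega
      simp [h5, h6]
    · have h6 : (m + 1) % 2 = 0 := by omega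
      simp [h5, h6]

/-- the basic inequality between density and dependence range -/
lemma upper_ineq (h : IsHardCoreLaw k μ) :
    2 * μ.real (cyl {0}) * (1 - μ.real (cyl {0})) ≤ (k + 1) * (1 - 2 * μ.real (cyl {0})) := by
  have := h.prob
  set p := μ.real (cyl {0}) with hp
  set n : ℕ := k + 1 with hn
  have hp0 : 0 ≤ p := measureReal_nonneg
  have hE : μ.real (⋃ i ∈ Finset.range n, Emp (i : ℕ)) ≤ (k + 1) * (1 - 2 * p) := by
    refine (measureReal_biUnion_finset_le _ _).trans ?_
    rw [Finset.sum_congr rfl (fun i _ => Emp_real h i), Finset.sum_const, Finset.card_range, hn,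
      nsmul_eq_mul]
    push_cast
    exact le_rfl
  -- both ends
  have h0n : μ.real (cyl {0, (n : ℤ)}) = p * p := by
    have h1 := cyl_union h {0} {(n : ℤ)} (by
      simp only [Finset.mem_singleton]
      rintro s rfl t rfl
      rw [zero_sub, abs_neg, abs_of_nonneg (by positivity)]
      rw [hn]; push_cast; omega)
    rw [cyl_single h n] at h1
    exact h1
  have hun : μ.real (cyl {0} ∪ cyl {(n : ℤ)}) = 2 * p - p * p := by
    have h1 := measureReal_union_add_inter (μ := μ) (s := cyl {0}) (measurableSet_cyl {(n : ℤ)})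
    rw [cyl_inter, cyl_single h n] at h1
    have h2 : ({0} ∪ {(n : ℤ)} : Finset ℤ) = {0, (n : ℤ)} := rfl
    rw [h2, h0n] at h1
    linarith
  have hne : μ.real ((cyl {0} ∪ cyl {(n : ℤ)}) \ cyl {0, (n : ℤ)}) = 2 * p * (1 - p) := by
    rw [measureReal_sdiff _ (measurableSet_cyl _), hun, h0n]
    · ring
    · have : cyl {0, (n : ℤ)} = cyl {0} ∩ cyl {(n : ℤ)} := by rw [cyl_inter]; rfl
      rw [this]
      exact Set.inter_subset_left.trans Set.subset_union_left
  have hset : (cyl {0} ∪ cyl {(n : ℤ)}) \ cyl {0, (n : ℤ)} = {x | x 0 ≠ x n} := by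
    ext x
    simp only [cyl, Finset.mem_singleton, Finset.mem_insert, Set.mem_sdiff, Set.mem_union,
      Set.mem_ofPred_eq, forall_eq, forall_eq_or_imp]
    cases x 0 <;> cases x n <;> simp
  rw [hset] at hne
  rcases Nat.mod_two_eq_zero_or_one n with hpar | hpar
  · -- n even
    rw [← hne]
    refine le_trans ?_ hE
    have hsub : ∀ᵐ x ∂μ, x ∈ {x : ℤ → Bool | x 0 ≠ x n} →
        x ∈ (⋃ i ∈ Finset.range n, Emp (i : ℕ)) := by
      filter_upwards [h.hardcore] with x hx h1
      by_contra h2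
      simp only [Set.mem_iUnion, Finset.mem_range, not_exists] at h2
      have h3 := alternate x hx n (fun i hi => h2 i hi) n le_rfl
      rw [hpar] at h3
      apply h1
      rw [h3]; simp
    exact ENNReal.toReal_mono (measure_ne_top _ _) (measure_mono_ae hsub)
  · have hc : μ.real {x : ℤ → Bool | x 0 = x n} = 1 - 2 * p * (1 - p) := by
      rw [← hne, ← probReal_compl_eq_one_sub]
      · congr 1
        ext x; simp
      · rw [← hset]
        exact ((measurableSet_cyl _).union (measurableSet_cyl _)).diff (measurableSet_cyl _)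
    have hsub : ∀ᵐ x ∂μ, x ∈ {x : ℤ → Bool | x 0 = x n} →
        x ∈ (⋃ i ∈ Finset.range n, Emp (i : ℕ)) := by
      filter_upwards [h.hardcore] with x hx h1
      by_contra h2
      simp only [Set.mem_iUnion, Finset.mem_range, not_exists] at h2
      have h3 := alternate x hx n (fun i hi => h2 i hi) n le_rfl
      rw [hpar, ← h1] at h3
      simp at h3
    have h4 : μ.real {x : ℤ → Bool | x 0 = x n} ≤ μ.real (⋃ i ∈ Finset.range n, Emp (i : ℕ)) :=
      ENNReal.toReal_mono (measure_ne_top _ _) (measure_mono_ae hsub)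
    nlinarith [sq_nonneg (1 - 2 * p)]

lemma density_le_half (h : IsHardCoreLaw k μ) : μ.real (cyl {0}) ≤ 1 / 2 := by
  have h1 := Emp_real h 0
  have h2 : 0 ≤ μ.real (Emp (0 : ℕ)) := measureReal_nonneg
  linarith

lemma upper_bound (h : IsHardCoreLaw k μ) :
    μ.real (cyl {0}) ≤ 1 / 2 - 1 / (4 * k + 6) := by
  have h1 := upper_ineq h
  have h2 := density_le_half h
  set p := μ.real (cyl {0}) with hp
  have hp0 : 0 ≤ p := measureReal_nonneg
  have hk : (0 : ℝ) ≤ k := Nat.cast_nonneg k
  have h3 : 1 / (4 * k + 6) ≤ 1 / 2 - p := by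
    rw [div_le_iff₀ (by positivity)]
    nlinarith
  linarith

/-- integration of a linear combination of cylinder indicators -/
lemma lin_nonneg (hμ : IsProbabilityMeasure μ) {n : ℕ} (c : Fin n → ℝ) (S : Fin n → Finset ℤ)
    (h : ∀ᵐ x ∂μ, 0 ≤ ∑ j, c j * (cyl (S j)).indicator (fun _ => (1 : ℝ)) x) :
    0 ≤ ∑ j, c j * μ.real (cyl (S j)) := by
  have h1 : ∫ x, ∑ j, c j * (cyl (S j)).indicator (fun _ => (1 : ℝ)) x ∂μ =
      ∑ j, c j * μ.real (cyl (S j)) := by
    rw [integral_finsetSum]
    · apply Finset.sum_congr rfl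
      intro j _
      rw [integral_const_mul, integral_indicator_const _ (measurableSet_cyl _)]
      simp
    · intro j _
      exact ((integrable_const _).indicator (measurableSet_cyl _)).const_mul _
  rw [← h1]
  exact integral_nonneg_of_ae h

lemma cyl_shift_nat (h : IsHardCoreLaw k μ) (S : Finset ℤ) (n : ℕ) :
    μ.real (cyl (S.map (addRightEmbedding (n : ℤ)))) = μ.real (cyl S) := by
  induction n with
  | zero => congr 2; ext i; simp
  | succ n ih =>
    rw [← ih, ← cyl_shift h (S.map (addRightEmbedding (n : ℤ))), Finset.map_map]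
    congr 3
    ext i
    simp [add_assoc]

lemma cyl_union' (h : IsHardCoreLaw k μ) (S T U : Finset ℤ) (e : ∀ i, i ∈ U ↔ i ∈ S ∨ i ∈ T)
    (hST : ∀ s ∈ S, ∀ t ∈ T, (k : ℤ) < |s - t|) :
    μ.real (cyl U) = μ.real (cyl S) * μ.real (cyl T) := by
  rw [← cyl_union h S T hST]
  congr 2
  ext i
  rw [e, Finset.mem_union]

lemma ind_eq (S : Finset ℤ) (x : ℤ → Bool) : (cyl S).indicator (fun _ => (1 : ℝ)) x =
    if ∀ i ∈ S, x i = true then 1 else 0 := by
  by_cases h : ∀ i ∈ S, x i = true
  · rw [if_pos h, Set.indicator_of_mem]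
    exact h
  · rw [if_neg h, Set.indicator_of_notMem]
    exact h

/-- for `k = 2` -/
lemma upper_two (h : IsHardCoreLaw 2 μ) :
    0 ≤ 1 - 3 * μ.real (cyl {0}) + μ.real (cyl {0}) ^ 2 := by
  have hμ := h.prob
  set p := μ.real (cyl {0}) with hp
  have hp0 : 0 ≤ p := measureReal_nonneg
  set c := μ.real (cyl {0, 2}) with hc
  set d := μ.real (cyl {0, 2, 4}) with hd
  have hs := fun (S : Finset ℤ) (n : ℕ) => cyl_shift_nat h S n
  have q0 : μ.real (cyl ∅) = 1 := by
    have : cyl ∅ = Set.univ := by ext x; simp [cyl]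
    rw [this]; simp
  have q1 : μ.real (cyl {1}) = p := by simpa using hs {0} 1
  have q2 : μ.real (cyl {2}) = p := by simpa using hs {0} 2
  have q3 : μ.real (cyl {3}) = p := by simpa using hs {0} 3
  have q4 : μ.real (cyl {4}) = p := by simpa using hs {0} 4
  have q5 : μ.real (cyl {5}) = p := by simpa using hs {0} 5
  have q13 : μ.real (cyl {1, 3}) = c := by simpa using hs {0, 2} 1
  have q24 : μ.real (cyl {2, 4}) = c := by simpa using hs {0, 2} 2
  have q35 : μ.real (cyl {3, 5}) = c := by simpa using hs {0, 2} 3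
  have q135 : μ.real (cyl {1, 3, 5}) = d := by simpa using hs {0, 2, 4} 1
  have q03 : μ.real (cyl {0, 3}) = p * p := by
    have := cyl_union' h {0} {3} {0, 3} (by simp) (by simp); rwa [q3] at this
  have q04 : μ.real (cyl {0, 4}) = p * p := by
    have := cyl_union' h {0} {4} {0, 4} (by simp) (by simp); rwa [q4] at this
  have q05 : μ.real (cyl {0, 5}) = p * p := by
    have := cyl_union' h {0} {5} {0, 5} (by simp) (by simp); rwa [q5] at this
  have q14 : μ.real (cyl {1, 4}) = p * p := by rw [← q03]; simpa using hs {0, 3} 1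
  have q25 : μ.real (cyl {2, 5}) = p * p := by rw [← q03]; simpa using hs {0, 3} 2
  have q15 : μ.real (cyl {1, 5}) = p * p := by rw [← q04]; simpa using hs {0, 4} 1
  have q025 : μ.real (cyl {0, 2, 5}) = c * p := by
    have := cyl_union' h {0, 2} {5} {0, 2, 5} (by simp [or_assoc]) (by simp); rwa [q5] at this
  have q035 : μ.real (cyl {0, 3, 5}) = p * c := by
    have := cyl_union' h {0} {3, 5} {0, 3, 5} (by simp) (by simp); rwa [q35] at this
  -- first inequality
  have i1 := lin_nonneg hμ ![1, -1, -1] ![{0, 5}, {0, 2, 5}, {0, 3, 5}] (by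
    filter_upwards [h.hardcore] with x hx
    have h2 := hx 2
    simp only [Fin.sum_univ_succ, Fin.sum_univ_zero, ind_eq]
    simp
    revert h2
    norm_num
    cases x 0 <;> cases x 2 <;> cases x 3 <;> cases x 5 <;> simp)
  simp [Fin.sum_univ_succ, q05, q025, q035] at i1
  have i2 := lin_nonneg hμ ![1, -1, -1, -1, -1, 1, 1, 1]
    ![{0}, {0, 2}, {0, 3}, {0, 4}, {0, 5}, {0, 2, 4}, {0, 2, 5}, {0, 3, 5}] (by
    filter_upwards [h.hardcore] with x hx
    have h2 := hx 2
    have h3 := hx 3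
    have h4 := hx 4
    simp only [Fin.sum_univ_succ, Fin.sum_univ_zero, ind_eq]
    simp
    revert h2 h3 h4
    norm_num
    cases x 0 <;> cases x 2 <;> cases x 3 <;> cases x 4 <;> cases x 5 <;> simp)
  simp [Fin.sum_univ_succ, q05, q025, q035, q03, q04] at i2
  have i3 := lin_nonneg hμ ![1, -1, -1, -1, -1, -1, -1, 1, 1, 1, 1, 1, 1, 1, 1, 1, 1,
      -1, -1, -1, -1]
    ![∅, {0}, {1}, {2}, {3}, {4}, {5}, {0, 2}, {1, 3}, {2, 4}, {3, 5}, {0, 3}, {1, 4}, {2, 5},
      {0, 4}, {1, 5}, {0, 5}, {0, 2, 4}, {1, 3, 5}, {0, 2, 5}, {0, 3, 5}] (by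
    filter_upwards [h.hardcore] with x hx
    have h0 := hx 0
    have h1 := hx 1
    have h2 := hx 2
    have h3 := hx 3
    have h4 := hx 4
    simp only [Fin.sum_univ_succ, Fin.sum_univ_zero, ind_eq]
    simp
    revert h0 h1 h2 h3 h4
    norm_num
    cases x 0 <;> cases x 1 <;> cases x 2 <;> cases x 3 <;> cases x 4 <;> cases x 5 <;> simp <;>
      norm_num)
  simp [Fin.sum_univ_succ, q05, q025, q035, q03, q04, q0, q1, q2, q3, q4, q5, q13, q24, q35, q14,
    q25, q15, q135] at i3
  rw [← hp, ← hc, ← hd] at i3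
  rw [← hp, ← hc, ← hd] at i2
  nlinarith

end

end Pool.Agent.H643R3
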