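import Pool.Agent.H643R3.Proc

/-!
# Window measures and the stationary 2-dependent renewal hard-core process
-/

set_option autoImplicit false

open MeasureTheory ProbabilityTheory Filter Topology

namespace Pool.Agent.H643R3

/-- law of the renewal configuration on the `n` sites starting at `a`, given that the last occupied
site is `k + 1` steps to the left of `a` (up to the normalisation `T`) -/
noncomputable def W (r s : ℝ) : ℕ → ℤ → ℕ → Measure (ℤ → Bool)
  | 0, _, k => ENNReal.ofReal (T r s (k + 2)) • Measure.dirac (fun _ => false)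
  | (n + 1), a, k => (W r s n (a + 1) (k + 1)).map (fun x => Function.update x a false) +
      ENNReal.ofReal (T r s (k + 2) - T r s (k + 3)) •
        (W r s n (a + 1) 0).map (fun x => Function.update x a true)

lemma measurable_upd (a : ℤ) (v : Bool) :
    Measurable (fun x : ℤ → Bool => Function.update x a v) := by
  refine measurable_pi_lambda _ fun i => ?_
  by_cases h : i = a
  · subst h; simp
  · simp only [Function.update_of_ne h]
    exact measurable_pi_apply i

lemma L_congr (S S' : Finset ℤ) : ∀ (n : ℕ) (a : ℤ), (∀ i, a ≤ i → (i ∈ S ↔ i ∈ S')) →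
    L S a n = L S' a n := by
  intro n
  induction n with
  | zero => intro a _; rfl
  | succ n ih =>
    intro a h
    unfold L
    rw [ih (a + 1) (fun i hi => h i (by omega))]
    congr 1
    exact decide_eq_decide.2 (h a le_rfl)

lemma W_cyl {r s : ℝ} (hT : ∀ k, 0 ≤ T r s (k + 2)) (hf : ∀ k, T r s (k + 3) ≤ T r s (k + 2)) :
    ∀ (n : ℕ) (a : ℤ) (k : ℕ) (S : Finset ℤ), (∀ i ∈ S, a ≤ i ∧ i < a + n) →
      W r s n a k (cyl S) = ENNReal.ofReal (G r s k (L S a n)) := by
  intro n
  induction n with
  | zero =>
    intro a k S hS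
    have hS0 : S = ∅ := by
      rw [Finset.eq_empty_iff_forall_notMem]
      intro i hi
      have := hS i hi
      simp at this
      omega
    subst hS0
    have h1 : cyl ∅ = Set.univ := by ext x; simp [cyl]
    rw [h1]
    simp [W, L, G]
  | succ n ih =>
    intro a k S hS
    rw [W]
    rw [Measure.add_apply, Measure.smul_apply, smul_eq_mul,
      Measure.map_apply (measurable_upd a _) (measurableSet_cyl S),
      Measure.map_apply (measurable_upd a _) (measurableSet_cyl S)]
    have hE : ∀ i ∈ S.erase a, a + 1 ≤ i ∧ i < a + 1 + n := by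
      intro i hi
      rw [Finset.mem_erase] at hi
      have := hS i hi.2
      push_cast at this
      have h2 := hi.1
      omega
    have hLE : L (S.erase a) (a + 1) n = L S (a + 1) n := by
      apply L_congr
      intro i hi
      rw [Finset.mem_erase]
      exact and_iff_right (by omega)
    have htrue : (fun x : ℤ → Bool => Function.update x a true) ⁻¹' cyl S = cyl (S.erase a) := by
      ext x
      simp only [cyl, Set.mem_preimage, Set.mem_ofPred_eq, Finset.mem_erase]
      constructor
      · rintro h i ⟨h1, h2⟩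
        have := h i h2
        rwa [Function.update_of_ne h1] at this
      · intro h i hi
        by_cases h1 : i = a
        · subst h1; simp
        · rw [Function.update_of_ne h1]
          exact h i ⟨h1, hi⟩
    rw [htrue, ih (a + 1) 0 _ hE, hLE]
    by_cases hm : a ∈ S
    · have hfalse : (fun x : ℤ → Bool => Function.update x a false) ⁻¹' cyl S = ∅ := by
        ext x
        simp only [cyl, Set.mem_preimage, Set.mem_ofPred_eq, Set.mem_empty_iff_false, iff_false]
        intro h
        have := h a hm
        simp at this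
      have hL : L S a (n + 1) = true :: L S (a + 1) n := by simp [L, hm]
      rw [hfalse, measure_empty, zero_add, hL, G, ENNReal.ofReal_mul (sub_nonneg.2 (hf k))]
    · have hSE : S.erase a = S := Finset.erase_eq_of_notMem hm
      have hfalse : (fun x : ℤ → Bool => Function.update x a false) ⁻¹' cyl S = cyl S := by
        ext x
        simp only [cyl, Set.mem_preimage, Set.mem_ofPred_eq]
        refine forall₂_congr fun i hi => ?_
        rw [Function.update_of_ne]
        rintro rfl
        exact hm hi
      have hL : L S a (n + 1) = false :: L S (a + 1) n := by simp [L, hm]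
      rw [hfalse, ih (a + 1) (k + 1) S (hSE ▸ hE), hL, G,
        ENNReal.ofReal_add (G_nonneg hT hf _ _) (mul_nonneg (sub_nonneg.2 (hf k)) (G_nonneg hT hf _ _)),
        ENNReal.ofReal_mul (sub_nonneg.2 (hf k))]

lemma rho_empty (p r : ℝ) : rho p r ∅ = 1 := by simp [rho]

/-- Existence of the stationary 2-dependent renewal hard-core process. -/
theorem exists_renewal {p r : ℝ} (hp : p ≠ 0) (hT : ∀ k, 0 ≤ T r (p - r) (k + 2))
    (hf : ∀ k, T r (p - r) (k + 3) ≤ T r (p - r) (k + 2)) :
    ∃ μ : Measure (ℤ → Bool), IsHardCoreLaw 2 μ ∧ μ.real {x | x 0 = true} = p := by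
  have hW : ∀ (N : ℕ) (S : Finset ℤ), (∀ i ∈ S, -(N : ℤ) + 2 ≤ i ∧ i ≤ N) →
      W r (p - r) (2 * N + 1) (-(N : ℤ)) 0 (cyl S) = ENNReal.ofReal (rho p r S) := by
    intro N S hS
    rw [W_cyl hT hf _ _ _ _ (fun i hi => ?_), G_pattern hp]
    · intro i hi
      have := hS i hi
      push_cast
      omega
    · intro i hi
      exact (hS i hi).1
    · have := hS i hi
      push_cast
      omega
  have hprob : ∀ N : ℕ, IsProbabilityMeasure (W r (p - r) (2 * N + 1) (-(N : ℤ)) 0) := by
    intro N
    constructor
    have h1 : cyl ∅ = Set.univ := by ext x; simp [cyl]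
    rw [← h1, hW N ∅ (by simp), rho_empty, ENNReal.ofReal_one]
  have hrho0 : ∀ S, 0 ≤ rho p r S := by
    intro S
    obtain ⟨N, hN⟩ : ∃ N : ℕ, ∀ i ∈ S, -(N : ℤ) + 2 ≤ i ∧ i ≤ N := by
      refine ⟨S.sup (fun i => i.natAbs) + 2, fun i hi => ?_⟩
      have := Finset.le_sup (f := fun i : ℤ => i.natAbs) hi
      push_cast
      omega
    have h2 := key p r S (2 * N + 1) (-(N : ℤ)) (fun i hi => by have := hN i hi; push_cast; omega)
    rw [← G_pattern hp S (-(N : ℤ)) (2 * N + 1)
      (fun i hi => by have := hN i hi; push_cast; omega) (fun i hi => (hN i hi).1)]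
    exact G_nonneg hT hf _ _
  obtain ⟨ν, hν, hρ⟩ := exists_limit (rho p r)
    (fun N => ⟨W r (p - r) (2 * N + 1) (-(N : ℤ)) 0, hprob N⟩) (fun S => by
      filter_upwards [eventually_ge_atTop (S.sup (fun i => i.natAbs) + 2)] with N hN
      have hS : ∀ i ∈ S, -(N : ℤ) + 2 ≤ i ∧ i ≤ N := by
        intro i hi
        have := Finset.le_sup (f := fun i : ℤ => i.natAbs) hi
        omega
      show (W r (p - r) (2 * N + 1) (-(N : ℤ)) 0).real (cyl S) = rho p r S
      rw [Measure.real, hW N S hS, ENNReal.toReal_ofReal (hrho0 S)])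
  refine ⟨ν, isHardCoreLaw_of_rho ν hρ, ?_⟩
  have h1 : {x : ℤ → Bool | x 0 = true} = cyl {0} := by ext x; simp [cyl]
  rw [h1, hρ]
  simp [rho, g]

end Pool.Agent.H643R3
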